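import Pool.Agent.H821R3.Wirt

/-! Wirtinger's inequality for functions with `F (t + 2π) = e^{2πiβ} F t`, `0 ≤ β ≤ 1/2`. -/

set_option autoImplicit false

open MeasureTheory Set Filter Topology

namespace Run7.h444.LTR

open Pool.Agent.H821R3

/-- The isoperimetric inequality for periodic functions. -/
theorem iso (a b a' b' : ℝ → ℝ) (β : ℝ) (h0 : 0 ≤ β) (h1 : β ≤ 1 / 2)
    (ha : ∀ t, HasDerivAt a (a' t) t) (hb : ∀ t, HasDerivAt b (b' t) t)
    (ca : Continuous a') (cb : Continuous b')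
    (pa : ∀ t, a (t + 2 * Real.pi) = a t) (pb : ∀ t, b (t + 2 * Real.pi) = b t)
    (pa' : ∀ t, a' (t + 2 * Real.pi) = a' t) (pb' : ∀ t, b' (t + 2 * Real.pi) = b' t) :
    β ^ 2 * ∫ t in (0 : ℝ)..(2 * Real.pi), (a t ^ 2 + b t ^ 2) ≤
      ∫ t in (0 : ℝ)..(2 * Real.pi), ((a' t - β * b t) ^ 2 + (b' t + β * a t) ^ 2) := by
  have hpi := Real.pi_pos
  have cca : Continuous a := continuous_iff_continuousAt.2 fun x => (ha x).continuousAt
  have ccb : Continuous b := continuous_iff_continuousAt.2 fun x => (hb x).continuousAt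
  set c1 : ℝ := (∫ t in (0 : ℝ)..(2 * Real.pi), a t) / (2 * Real.pi) with hc1
  set c2 : ℝ := (∫ t in (0 : ℝ)..(2 * Real.pi), b t) / (2 * Real.pi) with hc2
  have w1 := wirtinger (fun t => a t - c1) a' (fun t => (ha t).sub_const c1) ca
    (fun t => by simp only [pa]) pa'
  have w2 := wirtinger (fun t => b t - c2) b' (fun t => (hb t).sub_const c2) cb
    (fun t => by simp only [pb]) pb'
  have II : ∀ f : ℝ → ℝ, Continuous f → IntervalIntegrable f volume 0 (2 * Real.pi) :=
    fun f hf => hf.intervalIntegrable _ _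
  have z1 : ∫ t in (0 : ℝ)..(2 * Real.pi), (a t - c1) = 0 := by
    rw [intervalIntegral.integral_sub (II _ cca) (II _ continuous_const),
      intervalIntegral.integral_const, sub_zero, smul_eq_mul, hc1]
    field_simp
    ring
  have z2 : ∫ t in (0 : ℝ)..(2 * Real.pi), (b t - c2) = 0 := by
    rw [intervalIntegral.integral_sub (II _ ccb) (II _ continuous_const),
      intervalIntegral.integral_const, sub_zero, smul_eq_mul, hc2]
    field_simp
    ring
  rw [z1] at w1
  rw [z2] at w2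
  have d1 : ∫ t in (0 : ℝ)..(2 * Real.pi), a' t = 0 := by
    rw [intervalIntegral.integral_eq_sub_of_hasDerivAt (fun t _ => ha t) (II _ ca)]
    have := pa 0
    rw [zero_add] at this
    rw [this, sub_self]
  have d2 : ∫ t in (0 : ℝ)..(2 * Real.pi), b' t = 0 := by
    rw [intervalIntegral.integral_eq_sub_of_hasDerivAt (fun t _ => hb t) (II _ cb)]
    have := pb 0
    rw [zero_add] at this
    rw [this, sub_self]
  have key : 0 ≤ ∫ t in (0 : ℝ)..(2 * Real.pi),
      (β * (a' t - (b t - c2)) ^ 2 + β * (b' t + (a t - c1)) ^ 2) := by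
    refine intervalIntegral.integral_nonneg (by positivity) fun t _ => ?_
    positivity
  have e1 : ∀ t, β * (a' t - (b t - c2)) ^ 2 + β * (b' t + (a t - c1)) ^ 2 =
      ((a' t - β * b t) ^ 2 + (b' t + β * a t) ^ 2) - β ^ 2 * (a t ^ 2 + b t ^ 2) -
      (1 - β) * (a' t ^ 2 + b' t ^ 2) + β * ((a t - c1) ^ 2 + (b t - c2) ^ 2)
      + 2 * β * c2 * a' t - 2 * β * c1 * b' t := by
    intro t; ring
  simp only [e1] at key
  have q1 : IntervalIntegrable (fun t => (a' t - β * b t) ^ 2 + (b' t + β * a t) ^ 2) volume 0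
      (2 * Real.pi) := II _ (by fun_prop)
  have q2 : IntervalIntegrable (fun t => β ^ 2 * (a t ^ 2 + b t ^ 2)) volume 0
      (2 * Real.pi) := II _ (by fun_prop)
  have q3 : IntervalIntegrable (fun t => (1 - β) * (a' t ^ 2 + b' t ^ 2)) volume 0
      (2 * Real.pi) := II _ (by fun_prop)
  have q4 : IntervalIntegrable (fun t => β * ((a t - c1) ^ 2 + (b t - c2) ^ 2)) volume 0
      (2 * Real.pi) := II _ (by fun_prop)
  have q5 : IntervalIntegrable (fun t => 2 * β * c2 * a' t) volume 0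
      (2 * Real.pi) := II _ (by fun_prop)
  have q6 : IntervalIntegrable (fun t => 2 * β * c1 * b' t) volume 0
      (2 * Real.pi) := II _ (by fun_prop)
  have q12 : IntervalIntegrable (fun t => (a' t - β * b t) ^ 2 + (b' t + β * a t) ^ 2 -
      β ^ 2 * (a t ^ 2 + b t ^ 2)) volume 0 (2 * Real.pi) := II _ (by fun_prop)
  have q123 : IntervalIntegrable (fun t => (a' t - β * b t) ^ 2 + (b' t + β * a t) ^ 2 -
      β ^ 2 * (a t ^ 2 + b t ^ 2) - (1 - β) * (a' t ^ 2 + b' t ^ 2)) volume 0 (2 * Real.pi) :=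
    II _ (by fun_prop)
  have q1234 : IntervalIntegrable (fun t => (a' t - β * b t) ^ 2 + (b' t + β * a t) ^ 2 -
      β ^ 2 * (a t ^ 2 + b t ^ 2) - (1 - β) * (a' t ^ 2 + b' t ^ 2) +
      β * ((a t - c1) ^ 2 + (b t - c2) ^ 2)) volume 0 (2 * Real.pi) :=
    II _ (by fun_prop)
  have q12345 : IntervalIntegrable (fun t => (a' t - β * b t) ^ 2 + (b' t + β * a t) ^ 2 -
      β ^ 2 * (a t ^ 2 + b t ^ 2) - (1 - β) * (a' t ^ 2 + b' t ^ 2) +
      β * ((a t - c1) ^ 2 + (b t - c2) ^ 2) + 2 * β * c2 * a' t) volume 0 (2 * Real.pi) :=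
    II _ (by fun_prop)
  rw [intervalIntegral.integral_sub q12345 q6,
    intervalIntegral.integral_add q1234 q5,
    intervalIntegral.integral_add q123 q4,
    intervalIntegral.integral_sub q12 q3,
    intervalIntegral.integral_sub q1 q2] at key
  have s3 : ∫ t in (0 : ℝ)..(2 * Real.pi), (1 - β) * (a' t ^ 2 + b' t ^ 2) =
      (1 - β) * ((∫ t in (0 : ℝ)..(2 * Real.pi), a' t ^ 2) +
        ∫ t in (0 : ℝ)..(2 * Real.pi), b' t ^ 2) := by
    rw [intervalIntegral.integral_const_mul,
      intervalIntegral.integral_add (II (fun t => a' t ^ 2) (by fun_prop))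
        (II (fun t => b' t ^ 2) (by fun_prop))]
  have s4 : ∫ t in (0 : ℝ)..(2 * Real.pi), β * ((a t - c1) ^ 2 + (b t - c2) ^ 2) =
      β * ((∫ t in (0 : ℝ)..(2 * Real.pi), (a t - c1) ^ 2) +
        ∫ t in (0 : ℝ)..(2 * Real.pi), (b t - c2) ^ 2) := by
    rw [intervalIntegral.integral_const_mul,
      intervalIntegral.integral_add (II (fun t => (a t - c1) ^ 2) (by fun_prop))
        (II (fun t => (b t - c2) ^ 2) (by fun_prop))]
  rw [s3, s4, intervalIntegral.integral_const_mul, intervalIntegral.integral_const_mul,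
    intervalIntegral.integral_const_mul, d1, d2] at key
  have n1 : 0 ≤ ∫ t in (0 : ℝ)..(2 * Real.pi), a' t ^ 2 :=
    intervalIntegral.integral_nonneg (by positivity) fun t _ => sq_nonneg _
  have n2 : 0 ≤ ∫ t in (0 : ℝ)..(2 * Real.pi), b' t ^ 2 :=
    intervalIntegral.integral_nonneg (by positivity) fun t _ => sq_nonneg _
  nlinarith [mul_le_mul_of_nonneg_left w1 h0, mul_le_mul_of_nonneg_left w2 h0,
    mul_nonneg (by linarith : (0:ℝ) ≤ 1 - 2 * β) n1, mul_nonneg (by linarith : (0:ℝ) ≤ 1 - 2 * β) n2]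

/-- The isoperimetric inequality for periodic functions. -/
theorem iso' (a b a' b' : ℝ → ℝ) (β : ℝ) (h1 : |β| ≤ 1 / 2)
    (ha : ∀ t, HasDerivAt a (a' t) t) (hb : ∀ t, HasDerivAt b (b' t) t)
    (ca : Continuous a') (cb : Continuous b')
    (pa : ∀ t, a (t + 2 * Real.pi) = a t) (pb : ∀ t, b (t + 2 * Real.pi) = b t)
    (pa' : ∀ t, a' (t + 2 * Real.pi) = a' t) (pb' : ∀ t, b' (t + 2 * Real.pi) = b' t) :
    β ^ 2 * ∫ t in (0 : ℝ)..(2 * Real.pi), (a t ^ 2 + b t ^ 2) ≤
      ∫ t in (0 : ℝ)..(2 * Real.pi), ((a' t - β * b t) ^ 2 + (b' t + β * a t) ^ 2) := by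
  rcases le_total 0 β with h | h
  · exact iso a b a' b' β h ((le_abs_self β).trans h1) ha hb ca cb pa pb pa' pb'
  · have h2 := iso b a b' a' (-β) (by linarith) ((neg_le_abs β).trans h1) hb ha cb ca pb pa pb' pa'
    have e1 : ∀ t, b t ^ 2 + a t ^ 2 = a t ^ 2 + b t ^ 2 := fun t => by ring
    have e2 : ∀ t, (b' t - -β * a t) ^ 2 + (a' t + -β * b t) ^ 2 =
        (a' t - β * b t) ^ 2 + (b' t + β * a t) ^ 2 := fun t => by ring
    simp only [e1, e2, neg_sq] at h2
    exact h2

/-- Wirtinger's inequality on `[0, 2π]` for functions with `F (t + 2π) = e^{2πiβ} F t`,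
`|β| ≤ 1/2`. -/
theorem twisted (F F' : ℝ → ℂ) (β : ℝ) (h1 : |β| ≤ 1 / 2)
    (hF : ∀ t, HasDerivAt F (F' t) t) (hc : Continuous F')
    (hper : ∀ t, F (t + 2 * Real.pi) = Complex.exp (2 * Real.pi * β * Complex.I) * F t)
    (hper' : ∀ t, F' (t + 2 * Real.pi) = Complex.exp (2 * Real.pi * β * Complex.I) * F' t) :
    β ^ 2 * ∫ t in (0:ℝ)..(2 * Real.pi), ‖F t‖ ^ 2 ≤
      ∫ t in (0:ℝ)..(2 * Real.pi), ‖F' t‖ ^ 2 := by
  have hFc : Continuous F := continuous_iff_continuousAt.2 fun x => (hF x).continuousAt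
  set e : ℝ → ℂ := fun t => Complex.exp (-((β : ℂ) * (t : ℂ)) * Complex.I) with he
  have hed : ∀ t, HasDerivAt e (-((β : ℂ) * Complex.I) * e t) t := by
    intro t
    have h2 : HasDerivAt (fun s : ℝ => (-((β : ℂ) * (s : ℂ)) * Complex.I))
        (-((β : ℂ) * 1) * Complex.I) t := by
      exact (((Complex.ofRealCLM.hasDerivAt (x := t)).const_mul (β:ℂ)).neg).mul_const _
    have h3 := h2.cexp
    refine h3.congr_deriv ?_
    simp only [he]
    ring
  have hec : Continuous e := continuous_iff_continuousAt.2 fun x => (hed x).continuousAt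
  have hne : ∀ t, ‖e t‖ = 1 := by
    intro t
    simp only [he]
    rw [show (-((β : ℂ) * (t : ℂ)) * Complex.I : ℂ) = ((-(β * t) : ℝ) : ℂ) * Complex.I by
      push_cast; ring]
    exact Complex.norm_exp_ofReal_mul_I _
  have hpe : ∀ t, e (t + 2 * Real.pi) * Complex.exp (2 * Real.pi * β * Complex.I) = e t := by
    intro t
    simp only [he]
    rw [← Complex.exp_add]
    congr 1
    push_cast
    ring
  set g : ℝ → ℂ := fun t => e t * F t with hgdef
  set g' : ℝ → ℂ := fun t => e t * (F' t - β * Complex.I * F t) with hgdef'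
  have hg : ∀ t, HasDerivAt g (g' t) t := by
    intro t
    have := (hed t).mul (hF t)
    refine this.congr_deriv ?_
    simp only [hgdef']
    ring
  have hg'c : Continuous g' := hec.mul (hc.sub (continuous_const.mul hFc))
  have pg : ∀ t, g (t + 2 * Real.pi) = g t := by
    intro t
    simp only [hgdef]
    rw [hper, ← mul_assoc, hpe]
  have pg' : ∀ t, g' (t + 2 * Real.pi) = g' t := by
    intro t
    simp only [hgdef']
    rw [hper, hper']
    calc _ = (e (t + 2 * Real.pi) * Complex.exp (2 * Real.pi * β * Complex.I)) *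
        (F' t - β * Complex.I * F t) := by ring
      _ = _ := by rw [hpe]
  have h := iso' (fun t => (g t).re) (fun t => (g t).im) (fun t => (g' t).re) (fun t => (g' t).im)
    β h1 (fun t => Complex.reCLM.hasFDerivAt.comp_hasDerivAt t (hg t))
    (fun t => Complex.imCLM.hasFDerivAt.comp_hasDerivAt t (hg t))
    (Complex.continuous_re.comp hg'c) (Complex.continuous_im.comp hg'c)
    (fun t => by simp only [pg]) (fun t => by simp only [pg])
    (fun t => by simp only [pg']) (fun t => by simp only [pg'])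
  have e1 : ∀ t, ‖F t‖ ^ 2 = (g t).re ^ 2 + (g t).im ^ 2 := by
    intro t
    have : ‖F t‖ = ‖g t‖ := by simp only [hgdef]; rw [norm_mul, hne, one_mul]
    rw [this, Complex.sq_norm, Complex.normSq_apply]
    ring
  have e2 : ∀ t, ‖F' t‖ ^ 2 = ((g' t).re - β * (g t).im) ^ 2 + ((g' t).im + β * (g t).re) ^ 2 := by
    intro t
    have h5 : ‖F' t‖ = ‖g' t + β * Complex.I * g t‖ := by
      have : g' t + β * Complex.I * g t = e t * F' t := by
        simp only [hgdef, hgdef']
        ring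
      rw [this, norm_mul, hne, one_mul]
    rw [h5, Complex.sq_norm, Complex.normSq_apply]
    simp only [Complex.add_re, Complex.add_im, Complex.mul_re, Complex.mul_im, Complex.ofReal_re,
      Complex.ofReal_im, Complex.I_re, Complex.I_im]
    ring
  simp only [e1, e2]
  exact h

end Run7.h444.LTR
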