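import Mathlib

/-! Rotations of the plane of the first two coordinates. -/

set_option autoImplicit false

open MeasureTheory Set Filter Topology

namespace Run7.h444.LTR

variable {n : ℕ}

/-- The rotation by the angle `θ` of the first two coordinates. -/
noncomputable def rot (θ : ℝ) (x : Fin (n + 2) → ℝ) : Fin (n + 2) → ℝ := fun i =>
  if i = 0 then Real.cos θ * x 0 - Real.sin θ * x 1
  else if i = 1 then Real.sin θ * x 0 + Real.cos θ * x 1 else x i

theorem one_ne : (1 : Fin (n + 2)) ≠ 0 := by
  intro h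
  have := congrArg Fin.val h
  simp at this

theorem rot0 (θ : ℝ) (x : Fin (n + 2) → ℝ) :
    rot θ x 0 = Real.cos θ * x 0 - Real.sin θ * x 1 := by
  unfold rot; rw [if_pos rfl]

theorem rot1 (θ : ℝ) (x : Fin (n + 2) → ℝ) :
    rot θ x 1 = Real.sin θ * x 0 + Real.cos θ * x 1 := by
  unfold rot; rw [if_neg one_ne, if_pos rfl]

theorem roti (θ : ℝ) (x : Fin (n + 2) → ℝ) (i : Fin (n + 2)) (h0 : i ≠ 0) (h1 : i ≠ 1) :
    rot θ x i = x i := by
  unfold rot; rw [if_neg h0, if_neg h1]

theorem rot_rot (α β : ℝ) (x : Fin (n + 2) → ℝ) : rot α (rot β x) = rot (α + β) x := by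
  funext i
  by_cases h0 : i = 0
  · subst h0
    rw [rot0, rot0, rot0, rot1, Real.cos_add, Real.sin_add]
    ring
  · by_cases h1 : i = 1
    · subst h1
      rw [rot1, rot0, rot1, rot1, Real.cos_add, Real.sin_add]
      ring
    · rw [roti _ _ i h0 h1, roti _ _ i h0 h1, roti _ _ i h0 h1]

theorem rot_zero (x : Fin (n + 2) → ℝ) : rot 0 x = x := by
  funext i
  by_cases h0 : i = 0
  · subst h0; rw [rot0]; simp
  · by_cases h1 : i = 1
    · subst h1; rw [rot1]; simp
    · rw [roti _ _ i h0 h1]

theorem rot_two_pi (x : Fin (n + 2) → ℝ) : rot (2 * Real.pi) x = x := by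
  funext i
  by_cases h0 : i = 0
  · subst h0; rw [rot0]; simp
  · by_cases h1 : i = 1
    · subst h1; rw [rot1]; simp
    · rw [roti _ _ i h0 h1]

/-- The rotation as a linear map. -/
noncomputable def rotL (θ : ℝ) : (Fin (n + 2) → ℝ) →ₗ[ℝ] (Fin (n + 2) → ℝ) where
  toFun := rot θ
  map_add' x y := by
    funext i; unfold rot; simp only [Pi.add_apply]; split_ifs <;> ring
  map_smul' c x := by
    funext i; unfold rot; simp only [Pi.smul_apply, smul_eq_mul, RingHom.id_apply]
    split_ifs <;> ring

/-- The reflection in the second coordinate. -/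
noncomputable def flipL : (Fin (n + 2) → ℝ) →ₗ[ℝ] (Fin (n + 2) → ℝ) where
  toFun x := fun i => if i = 1 then -x i else x i
  map_add' x y := by
    funext i; simp only [Pi.add_apply]; split_ifs <;> ring
  map_smul' c x := by
    funext i; simp only [Pi.smul_apply, smul_eq_mul, RingHom.id_apply]
    split_ifs <;> ring

theorem flip1 (x : Fin (n + 2) → ℝ) : flipL x 1 = -x 1 := by
  show (if (1 : Fin (n + 2)) = 1 then -x 1 else x 1) = _
  rw [if_pos rfl]

theorem flipi (x : Fin (n + 2) → ℝ) (i : Fin (n + 2)) (h : i ≠ 1) : flipL x i = x i := by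
  show (if i = 1 then -x i else x i) = _
  rw [if_neg h]

theorem rotL_apply (θ : ℝ) (x : Fin (n + 2) → ℝ) : rotL θ x = rot θ x := rfl

theorem det_sq (θ : ℝ) : (LinearMap.det (rotL (n := n) θ)) ^ 2 = 1 := by
  have h1 : (flipL (n := n)).comp flipL = LinearMap.id := by
    refine LinearMap.ext fun x => ?_
    funext i
    rw [LinearMap.comp_apply, LinearMap.id_apply]
    by_cases h : i = 1
    · subst h; rw [flip1, flip1, neg_neg]
    · rw [flipi _ i h, flipi _ i h]
  have h2 : (rotL (n := n) θ).comp (rotL (-θ)) = LinearMap.id := by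
    refine LinearMap.ext fun x => ?_
    rw [LinearMap.comp_apply, LinearMap.id_apply, rotL_apply, rotL_apply, rot_rot,
      add_neg_cancel, rot_zero]
  have h3 : (flipL (n := n)).comp ((rotL θ).comp flipL) = rotL (-θ) := by
    refine LinearMap.ext fun x => ?_
    funext i
    rw [LinearMap.comp_apply, LinearMap.comp_apply, rotL_apply, rotL_apply]
    by_cases h0 : i = 0
    · subst h0
      rw [flipi _ 0 one_ne.symm, rot0, rot0, flip1, flipi _ 0 one_ne.symm, Real.cos_neg,
        Real.sin_neg]
      ring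
    · by_cases h : i = 1
      · subst h
        rw [flip1, rot1, rot1, flip1, flipi _ 0 one_ne.symm, Real.cos_neg, Real.sin_neg]
        ring
      · rw [flipi _ i h, roti _ _ i h0 h, roti _ _ i h0 h, flipi _ i h]
  have k1 := congrArg LinearMap.det h1
  have k2 := congrArg LinearMap.det h2
  have k3 := congrArg LinearMap.det h3
  rw [LinearMap.det_comp, LinearMap.det_id] at k1 k2
  rw [LinearMap.det_comp, LinearMap.det_comp] at k3
  rw [← k3] at k2
  have : LinearMap.det (rotL (n := n) θ) ^ 2 * (LinearMap.det (flipL (n := n)) *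
      LinearMap.det (flipL (n := n))) = 1 := by
    rw [← k2]; ring
  rwa [k1, mul_one] at this

theorem mp_rot (θ : ℝ) : MeasurePreserving (rot (n := n) θ) volume volume := by
  have h := det_sq (n := n) θ
  have hne : LinearMap.det (rotL (n := n) θ) ≠ 0 := by
    intro h0
    rw [h0] at h
    norm_num at h
  have habs : |(LinearMap.det (rotL (n := n) θ))⁻¹| = 1 := by
    rw [abs_inv]
    have : |LinearMap.det (rotL (n := n) θ)| = 1 := by
      rw [← sq_abs] at h
      nlinarith [abs_nonneg (LinearMap.det (rotL (n := n) θ))]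
    rw [this, inv_one]
  have hm := Real.map_linearMap_volume_pi_eq_smul_volume_pi hne
  rw [habs, ENNReal.ofReal_one, one_smul] at hm
  refine ⟨?_, hm⟩
  exact (LinearMap.continuous_of_finiteDimensional (rotL (n := n) θ)).measurable

theorem rot_cont : Continuous fun p : ℝ × (Fin (n + 2) → ℝ) => rot p.1 p.2 := by
  refine continuous_pi fun i => ?_
  by_cases h0 : i = 0
  · have e : (fun p : ℝ × (Fin (n + 2) → ℝ) => rot p.1 p.2 i) =
        fun p => Real.cos p.1 * p.2 0 - Real.sin p.1 * p.2 1 := by
      funext p; rw [h0, rot0]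
    rw [e]
    fun_prop
  · by_cases h1 : i = 1
    · have e : (fun p : ℝ × (Fin (n + 2) → ℝ) => rot p.1 p.2 i) =
          fun p => Real.sin p.1 * p.2 0 + Real.cos p.1 * p.2 1 := by
        funext p; rw [h1, rot1]
      rw [e]
      fun_prop
    · have e : (fun p : ℝ × (Fin (n + 2) → ℝ) => rot p.1 p.2 i) = fun p => p.2 i := by
        funext p; rw [roti _ _ i h0 h1]
      rw [e]
      fun_prop

theorem rot_cont' (θ : ℝ) : Continuous (rot (n := n) θ) :=
  LinearMap.continuous_of_finiteDimensional (rotL (n := n) θ)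

theorem rot_smooth (θ : ℝ) : ContDiff ℝ 1 (rot (n := n) θ) :=
  (LinearMap.toContinuousLinearMap (rotL (n := n) θ)).contDiff

/-- The generator of the rotations. -/
def J (x : Fin (n + 2) → ℝ) : Fin (n + 2) → ℝ := fun i =>
  if i = 0 then -x 1 else if i = 1 then x 0 else 0

theorem J0 (x : Fin (n + 2) → ℝ) : J x 0 = -x 1 := by unfold J; rw [if_pos rfl]

theorem J1 (x : Fin (n + 2) → ℝ) : J x 1 = x 0 := by unfold J; rw [if_neg one_ne, if_pos rfl]

theorem Ji (x : Fin (n + 2) → ℝ) (i : Fin (n + 2)) (h0 : i ≠ 0) (h1 : i ≠ 1) : J x i = 0 := by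
  unfold J; rw [if_neg h0, if_neg h1]

theorem rot_deriv (θ : ℝ) (x : Fin (n + 2) → ℝ) :
    HasDerivAt (fun s => rot s x) (J (rot θ x)) θ := by
  refine hasDerivAt_pi.2 fun i => ?_
  have hs := Real.hasDerivAt_sin θ
  have hc := Real.hasDerivAt_cos θ
  by_cases h0 : i = 0
  · subst h0
    simp only [rot0, J0, rot1]
    refine ((hc.mul_const (x 0)).sub (hs.mul_const (x 1))).congr_deriv ?_
    ring
  · by_cases h1 : i = 1
    · subst h1
      simp only [rot1, J1, rot0]
      refine ((hs.mul_const (x 0)).add (hc.mul_const (x 1))).congr_deriv ?_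
      ring
    · simp only [roti _ _ i h0 h1, Ji _ i h0 h1]
      exact hasDerivAt_const _ _

theorem J_cont : Continuous (J (n := n)) := by
  refine continuous_pi fun i => ?_
  by_cases h0 : i = 0
  · subst h0; simp only [J0]; exact (continuous_apply _).neg
  · by_cases h1 : i = 1
    · subst h1; simp only [J1]; exact continuous_apply _
    · simp only [Ji _ i h0 h1]; exact continuous_const

/-- The square of the distance to the axis. -/
def nn (x : Fin (n + 2) → ℝ) : ℝ := x 0 ^ 2 + x 1 ^ 2

theorem nn_nonneg (x : Fin (n + 2) → ℝ) : 0 ≤ nn x := by unfold nn; positivity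

theorem nn_rot (θ : ℝ) (x : Fin (n + 2) → ℝ) : nn (rot θ x) = nn x := by
  unfold nn
  rw [rot0, rot1]
  have := Real.sin_sq_add_cos_sq θ
  calc _ = (Real.sin θ ^ 2 + Real.cos θ ^ 2) * (x 0 ^ 2 + x 1 ^ 2) := by ring
    _ = _ := by rw [this, one_mul]

theorem nn_cont : Continuous (nn (n := n)) :=
  ((continuous_apply 0).pow 2).add ((continuous_apply 1).pow 2)

end Run7.h444.LTR
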