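import Pool.Agent.Run7.h444.LTR.A
import Pool.Agent.Run7.h444.LTR.B

/-! The Hardy inequality for smooth functions which are equivariant under a rotation. -/

set_option autoImplicit false

open MeasureTheory Set Filter Topology ENNReal

namespace Run7.h444.LTR

variable {n : ℕ}

theorem rot_cont_t (q : ℕ) (x : Fin (n + 2) → ℝ) : Continuous fun t : ℝ => rot (t / q) x := by
  refine continuous_pi fun i => ?_
  by_cases h0 : i = 0
  · subst h0
    simp only [rot0]
    fun_prop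
  · by_cases h1 : i = 1
    · subst h1
      simp only [rot1]
      fun_prop
    · simp only [roti _ _ i h0 h1]
      exact continuous_const

theorem rot_cont_p (q : ℕ) :
    Continuous fun p : (Fin (n + 2) → ℝ) × ℝ => rot (p.2 / q) p.1 := by
  refine continuous_pi fun i => ?_
  by_cases h0 : i = 0
  · subst h0
    simp only [rot0]
    fun_prop
  · by_cases h1 : i = 1
    · subst h1
      simp only [rot1]
      fun_prop
    · simp only [roti _ _ i h0 h1]
      fun_prop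

/-- The angular derivative. -/
noncomputable def Dφ (G : (Fin (n + 2) → ℝ) → ℂ) (x : Fin (n + 2) → ℝ) : ℂ :=
  fderiv ℝ G x (J x)

theorem Dφ_cont {G : (Fin (n + 2) → ℝ) → ℂ} (hG : ContDiff ℝ 1 G) : Continuous (Dφ G) :=
  (hG.continuous_fderiv (by norm_num)).clm_apply J_cont

theorem orbit_deriv {G : (Fin (n + 2) → ℝ) → ℂ} (hG : ContDiff ℝ 1 G) (x : Fin (n + 2) → ℝ)
    (θ : ℝ) : HasDerivAt (fun s => G (rot s x)) (Dφ G (rot θ x)) θ :=
  ((hG.differentiable (by norm_num) (rot θ x)).hasFDerivAt).comp_hasDerivAt θ (rot_deriv θ x)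

/-- The equivariance of the angular derivative. -/
theorem Dφ_equiv {G : (Fin (n + 2) → ℝ) → ℂ} (hG : ContDiff ℝ 1 G) {α : ℝ} {ζ : ℂ}
    (heq : ∀ x, G (rot α x) = ζ * G x) (x : Fin (n + 2) → ℝ) :
    Dφ G (rot α x) = ζ * Dφ G x := by
  have h1 := orbit_deriv hG (rot α x) 0
  rw [rot_zero] at h1
  have h2 := (orbit_deriv hG x 0).const_mul ζ
  rw [rot_zero] at h2
  have e : (fun s => G (rot s (rot α x))) = fun s => ζ * G (rot s x) := by
    funext s
    rw [rot_rot, add_comm, ← rot_rot, heq]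
  rw [e] at h1
  exact h1.unique h2

theorem orbit_ineq (q : ℕ) (r : ℤ) (hq : 0 < q) (hr : 2 * |r| ≤ q) {G : (Fin (n + 2) → ℝ) → ℂ}
    (hG : ContDiff ℝ 1 G)
    (heq : ∀ x, G (rot (2 * Real.pi / q) x) =
      Complex.exp (2 * Real.pi * ((r / q : ℝ) : ℂ) * Complex.I) * G x)
    (x : Fin (n + 2) → ℝ) :
    (r : ℝ) ^ 2 * ∫ t in (0 : ℝ)..(2 * Real.pi), ‖G (rot (t / q) x)‖ ^ 2 ≤
      ∫ t in (0 : ℝ)..(2 * Real.pi), ‖Dφ G (rot (t / q) x)‖ ^ 2 := by
  have hqR : (0 : ℝ) < q := by exact_mod_cast hq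
  have hqC : (q : ℂ) ≠ 0 := by exact_mod_cast hq.ne'
  have hrR : 2 * |(r : ℝ)| ≤ q := by exact_mod_cast hr
  have hDc := Dφ_cont hG
  have hrc := rot_cont_t q x
  have hF : ∀ t : ℝ, HasDerivAt (fun t : ℝ => G (rot (t / q) x))
      ((q : ℂ)⁻¹ * Dφ G (rot (t / q) x)) t := by
    intro t
    have h1 := orbit_deriv hG x (t / q)
    have h2 : HasDerivAt (fun t : ℝ => t / q) (1 / q : ℝ) t := (hasDerivAt_id t).div_const _
    have h3 := HasDerivAt.scomp t h1 h2
    refine h3.congr_deriv ?_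
    rw [Complex.real_smul]
    push_cast
    rw [one_div]
  have hsh : ∀ t : ℝ, rot ((t + 2 * Real.pi) / q) x = rot (2 * Real.pi / q) (rot (t / q) x) := by
    intro t
    rw [rot_rot]
    congr 1
    ring
  have h := twisted (fun t => G (rot (t / q) x)) (fun t => (q : ℂ)⁻¹ * Dφ G (rot (t / q) x))
    ((r : ℝ) / q) (by rw [abs_div, abs_of_pos hqR, div_le_iff₀ hqR]; linarith) hF
    (continuous_const.mul (hDc.comp hrc)) (fun t => by simp only [hsh, heq])
    (fun t => by simp only [hsh, Dφ_equiv hG heq]; ring)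
  have e1 : ∀ t : ℝ, ‖(q : ℂ)⁻¹ * Dφ G (rot (t / q) x)‖ ^ 2 =
      ((q : ℝ) ^ 2)⁻¹ * ‖Dφ G (rot (t / q) x)‖ ^ 2 := by
    intro t
    rw [norm_mul, norm_inv, Complex.norm_natCast, mul_pow, inv_pow]
  simp only [e1] at h
  rw [intervalIntegral.integral_const_mul, div_pow] at h
  have hq2 : (0 : ℝ) < (q : ℝ) ^ 2 := by positivity
  rw [div_mul_eq_mul_div, div_le_iff₀ hq2] at h
  calc _ ≤ _ := h
    _ = _ := by field_simp

theorem hardyC1 (q : ℕ) (r : ℤ) (hq : 0 < q) (hr : 2 * |r| ≤ q) {G : (Fin (n + 2) → ℝ) → ℂ}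
    (hG : ContDiff ℝ 1 G)
    (heq : ∀ x, G (rot (2 * Real.pi / q) x) =
      Complex.exp (2 * Real.pi * ((r / q : ℝ) : ℂ) * Complex.I) * G x)
    (W : (Fin (n + 2) → ℝ) → ℝ≥0∞) (hW : Measurable W) (hWr : ∀ θ x, W (rot θ x) = W x) :
    ENNReal.ofReal ((r : ℝ) ^ 2) * ∫⁻ x, W x * ENNReal.ofReal (‖G x‖ ^ 2) ≤
      ∫⁻ x, W x * ENNReal.ofReal (‖Dφ G x‖ ^ 2) := by
  have hpi := Real.pi_pos
  have hDc := Dφ_cont hG
  have hGc := hG.continuous
  set I : Set ℝ := Ioc 0 (2 * Real.pi) with hI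
  have hrc := rot_cont_p (n := n) q
  -- a general fact
  have gen : ∀ H : (Fin (n + 2) → ℝ) → ℂ, Continuous H →
      ∫⁻ x, W x * ∫⁻ t in I, ENNReal.ofReal (‖H (rot (t / q) x)‖ ^ 2) =
        (∫⁻ x, W x * ENNReal.ofReal (‖H x‖ ^ 2)) * ENNReal.ofReal (2 * Real.pi) := by
    intro H hH
    have hm0 : Measurable fun x => W x * ENNReal.ofReal (‖H x‖ ^ 2) :=
      hW.mul ((hH.norm.pow 2).measurable.ennreal_ofReal)
    have hm : Measurable fun p : (Fin (n + 2) → ℝ) × ℝ =>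
        W p.1 * ENNReal.ofReal (‖H (rot (p.2 / q) p.1)‖ ^ 2) :=
      (hW.comp measurable_fst).mul (((hH.comp hrc).norm.pow 2).measurable.ennreal_ofReal)
    calc ∫⁻ x, W x * ∫⁻ t in I, ENNReal.ofReal (‖H (rot (t / q) x)‖ ^ 2)
        = ∫⁻ x, ∫⁻ t in I, W x * ENNReal.ofReal (‖H (rot (t / q) x)‖ ^ 2) := by
          refine lintegral_congr fun x => ?_
          rw [lintegral_const_mul]
          have : Continuous fun t : ℝ => ‖H (rot (t / q) x)‖ ^ 2 :=
            (hH.comp (rot_cont_t q x)).norm.pow 2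
          exact this.measurable.ennreal_ofReal
      _ = ∫⁻ t in I, ∫⁻ x, W x * ENNReal.ofReal (‖H (rot (t / q) x)‖ ^ 2) :=
          lintegral_lintegral_swap hm.aemeasurable
      _ = ∫⁻ t in I, ∫⁻ x, W x * ENNReal.ofReal (‖H x‖ ^ 2) := by
          refine lintegral_congr fun t => ?_
          have h1 := (mp_rot (n := n) (t / q)).lintegral_comp hm0
          simp only [hWr] at h1
          exact h1
      _ = _ := by
          rw [lintegral_const, Measure.restrict_apply MeasurableSet.univ, univ_inter, hI,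
            Real.volume_Ioc, sub_zero]
  have key : ∀ x, ENNReal.ofReal ((r : ℝ) ^ 2) *
      (W x * ∫⁻ t in I, ENNReal.ofReal (‖G (rot (t / q) x)‖ ^ 2)) ≤
      W x * ∫⁻ t in I, ENNReal.ofReal (‖Dφ G (rot (t / q) x)‖ ^ 2) := by
    intro x
    have h1 := orbit_ineq q r hq hr hG heq x
    have hc : ∀ H : (Fin (n + 2) → ℝ) → ℂ, Continuous H →
        ∫⁻ t in I, ENNReal.ofReal (‖H (rot (t / q) x)‖ ^ 2) =
        ENNReal.ofReal (∫ t in (0 : ℝ)..(2 * Real.pi), ‖H (rot (t / q) x)‖ ^ 2) := by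
      intro H hH
      have hcc : Continuous fun t : ℝ => ‖H (rot (t / q) x)‖ ^ 2 :=
        (hH.comp (rot_cont_t q x)).norm.pow 2
      rw [intervalIntegral.integral_of_le (by positivity)]
      rw [ofReal_integral_eq_lintegral_ofReal]
      · exact (hcc.intervalIntegrable 0 (2 * Real.pi)).1
      · exact Eventually.of_forall fun t => by positivity
    rw [hc G hGc, hc (Dφ G) hDc]
    calc ENNReal.ofReal ((r : ℝ) ^ 2) * (W x * ENNReal.ofReal (∫ t in (0 : ℝ)..(2 * Real.pi),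
          ‖G (rot (t / q) x)‖ ^ 2))
        = W x * ENNReal.ofReal ((r : ℝ) ^ 2 * ∫ t in (0 : ℝ)..(2 * Real.pi),
          ‖G (rot (t / q) x)‖ ^ 2) := by
          rw [ENNReal.ofReal_mul (by positivity)]
          ring
      _ ≤ _ := by gcongr
  have h2 := lintegral_mono (μ := volume) key
  have hmG : Measurable fun x => W x * ∫⁻ t in I, ENNReal.ofReal (‖G (rot (t / q) x)‖ ^ 2) := by
    refine hW.mul ?_
    have : Measurable fun p : (Fin (n + 2) → ℝ) × ℝ =>
        ENNReal.ofReal (‖G (rot (p.2 / q) p.1)‖ ^ 2) :=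
      ((hGc.comp hrc).norm.pow 2).measurable.ennreal_ofReal
    exact this.lintegral_prod_right'
  rw [lintegral_const_mul _ hmG, gen G hGc, gen (Dφ G) hDc, ← mul_assoc] at h2
  refine (ENNReal.mul_le_mul_iff_left ?_ ?_).1 h2
  · simp [hpi]
  · exact ENNReal.ofReal_ne_top

end Run7.h444.LTR
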