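import Pool.Agent.Run7.h444.LTR.C
import Pool.Agent.Helper717.LT.P_H_approx
import Pool.Agent.Helper717.LT.P_split_complex

/-! The Hardy inequality for functions of the Sobolev space which are equivariant under a
rotation. -/

set_option autoImplicit false

open MeasureTheory Set Filter Topology ENNReal
open scoped Convolution

namespace Run7.h444.LTR

open LTd

variable {n : ℕ}

/-- The projection to the equivariant functions. -/
noncomputable def Pr (q : ℕ) (ζ : ℂ) (G : (Fin (n + 2) → ℝ) → ℂ) (x : Fin (n + 2) → ℝ) : ℂ :=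
  (q : ℂ)⁻¹ * ∑ j ∈ Finset.range q, (ζ⁻¹) ^ j * G (rot (j * (2 * Real.pi / q)) x)

theorem Pr_equiv {q : ℕ} (hq : 0 < q) {ζ : ℂ} (hζ0 : ζ ≠ 0) (hζ : ζ ^ q = 1)
    (G : (Fin (n + 2) → ℝ) → ℂ) (x : Fin (n + 2) → ℝ) :
    Pr q ζ G (rot (2 * Real.pi / q) x) = ζ * Pr q ζ G x := by
  have hqR : (q : ℝ) ≠ 0 := by exact_mod_cast hq.ne'
  unfold Pr
  set f : ℕ → ℂ := fun j => (ζ⁻¹) ^ j * G (rot (j * (2 * Real.pi / q)) x) with hf
  have h1 : ∑ j ∈ Finset.range q, (ζ⁻¹) ^ j * G (rot (j * (2 * Real.pi / q))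
      (rot (2 * Real.pi / q) x)) = ζ * ∑ j ∈ Finset.range q, f (j + 1) := by
    rw [Finset.mul_sum]
    refine Finset.sum_congr rfl fun j _ => ?_
    simp only [hf]
    rw [rot_rot, pow_succ]
    have e : (j : ℝ) * (2 * Real.pi / q) + 2 * Real.pi / q =
        ((j + 1 : ℕ) : ℝ) * (2 * Real.pi / q) := by push_cast; ring
    rw [e]
    field_simp
  have h2 : f q = f 0 := by
    simp only [hf]
    rw [inv_pow, hζ, inv_one, pow_zero, Nat.cast_zero, zero_mul, rot_zero,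
      mul_div_cancel₀ _ hqR, rot_two_pi]
  have h3 : ∑ j ∈ Finset.range q, f (j + 1) = ∑ j ∈ Finset.range q, f j := by
    have a1 := Finset.sum_range_succ' f q
    have a2 := Finset.sum_range_succ f q
    rw [a2, h2] at a1
    exact (add_right_cancel a1).symm
  rw [h1, h3]
  ring

theorem Pr_smooth {q : ℕ} {ζ : ℂ} {G : (Fin (n + 2) → ℝ) → ℂ} (hG : ContDiff ℝ 1 G) :
    ContDiff ℝ 1 (Pr q ζ G) := by
  have : ∀ j ∈ Finset.range q, ContDiff ℝ 1 fun x =>
      (ζ⁻¹) ^ j * G (rot (j * (2 * Real.pi / q)) x) := fun j _ =>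
    contDiff_const.mul (hG.comp (rot_smooth _))
  exact contDiff_const.mul (ContDiff.sum this)

theorem Dφ_Pr {q : ℕ} {ζ : ℂ} {G : (Fin (n + 2) → ℝ) → ℂ} (hG : ContDiff ℝ 1 G)
    (x : Fin (n + 2) → ℝ) : Dφ (Pr q ζ G) x = Pr q ζ (Dφ G) x := by
  have h1 := orbit_deriv (Pr_smooth (q := q) (ζ := ζ) hG) x 0
  rw [rot_zero] at h1
  have h2 : HasDerivAt (fun s => Pr q ζ G (rot s x)) (Pr q ζ (Dφ G) x) 0 := by
    unfold Pr
    refine HasDerivAt.const_mul _ ?_
    have h3 : ∀ j ∈ Finset.range q, HasDerivAt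
        (fun s => (ζ⁻¹) ^ j * G (rot (j * (2 * Real.pi / q)) (rot s x)))
        ((ζ⁻¹) ^ j * Dφ G (rot (j * (2 * Real.pi / q)) x)) 0 := by
      intro j _
      refine HasDerivAt.const_mul _ ?_
      have h4 := orbit_deriv hG (rot (j * (2 * Real.pi / q)) x) 0
      rw [rot_zero] at h4
      have e : (fun s => G (rot (j * (2 * Real.pi / q)) (rot s x))) =
          fun s => G (rot s (rot (j * (2 * Real.pi / q)) x)) := by
        funext s
        rw [rot_rot, rot_rot, add_comm]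
      rw [e]
      exact h4
    exact HasDerivAt.fun_sum h3
  exact h1.unique h2

theorem norm_Pr {q : ℕ} (hq : 0 < q) {ζ : ℂ} (hζ : ‖ζ‖ = 1) (H : (Fin (n + 2) → ℝ) → ℂ)
    (x : Fin (n + 2) → ℝ) :
    ‖Pr q ζ H x‖ ^ 2 ≤ (q : ℝ)⁻¹ *
      ∑ j ∈ Finset.range q, ‖H (rot (j * (2 * Real.pi / q)) x)‖ ^ 2 := by
  have hqR : (0 : ℝ) < q := by exact_mod_cast hq
  unfold Pr
  rw [norm_mul, norm_inv, Complex.norm_natCast, mul_pow]
  have h1 : ‖∑ j ∈ Finset.range q, (ζ⁻¹) ^ j * H (rot (j * (2 * Real.pi / q)) x)‖ ≤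
      ∑ j ∈ Finset.range q, ‖H (rot (j * (2 * Real.pi / q)) x)‖ := by
    refine (norm_sum_le _ _).trans (le_of_eq ?_)
    refine Finset.sum_congr rfl fun j _ => ?_
    rw [norm_mul, norm_pow, norm_inv, hζ, inv_one, one_pow, one_mul]
  have h2 := sq_sum_le_card_mul_sum_sq (s := Finset.range q)
    (f := fun j => ‖H (rot (j * (2 * Real.pi / q)) x)‖)
  rw [Finset.card_range] at h2
  calc _ ≤ ((q : ℝ)⁻¹) ^ 2 * (q * ∑ j ∈ Finset.range q,
        ‖H (rot (j * (2 * Real.pi / q)) x)‖ ^ 2) := by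
        refine mul_le_mul_of_nonneg_left ?_ (by positivity)
        exact (pow_le_pow_left₀ (norm_nonneg _) h1 2).trans h2
    _ = _ := by rw [pow_two, mul_assoc, inv_mul_cancel_left₀ hqR.ne']

theorem lint_Pr {q : ℕ} (hq : 0 < q) {ζ : ℂ} (hζ : ‖ζ‖ = 1) {H : (Fin (n + 2) → ℝ) → ℂ}
    (hH : Continuous H) (W : (Fin (n + 2) → ℝ) → ℝ≥0∞) (hW : Measurable W)
    (hWr : ∀ θ x, W (rot θ x) = W x) :
    ∫⁻ x, W x * ENNReal.ofReal (‖Pr q ζ H x‖ ^ 2) ≤ ∫⁻ x, W x * ENNReal.ofReal (‖H x‖ ^ 2) := by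
  have hqR : (0 : ℝ) < q := by exact_mod_cast hq
  have hm0 : Measurable fun x => W x * ENNReal.ofReal (‖H x‖ ^ 2) :=
    hW.mul ((hH.norm.pow 2).measurable.ennreal_ofReal)
  have hrm : ∀ θ : ℝ, Measurable (rot (n := n) θ) := fun θ => (mp_rot θ).measurable
  calc ∫⁻ x, W x * ENNReal.ofReal (‖Pr q ζ H x‖ ^ 2)
      ≤ ∫⁻ x, ENNReal.ofReal ((q : ℝ)⁻¹) * ∑ j ∈ Finset.range q,
          W x * ENNReal.ofReal (‖H (rot (j * (2 * Real.pi / q)) x)‖ ^ 2) := by
        refine lintegral_mono fun x => ?_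
        refine (mul_le_mul_right (ENNReal.ofReal_le_ofReal (norm_Pr hq hζ H x)) (W x)).trans
          (le_of_eq ?_)
        rw [ENNReal.ofReal_mul (by positivity), ENNReal.ofReal_sum_of_nonneg
          (fun _ _ => by positivity), ← Finset.mul_sum]
        ring
    _ = ENNReal.ofReal ((q : ℝ)⁻¹) * ∑ j ∈ Finset.range q,
          ∫⁻ x, W x * ENNReal.ofReal (‖H (rot (j * (2 * Real.pi / q)) x)‖ ^ 2) := by
        have hm1 : ∀ j ∈ Finset.range q, Measurable fun x => W x *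
            ENNReal.ofReal (‖H (rot ((j : ℕ) * (2 * Real.pi / q)) x)‖ ^ 2) := fun j _ =>
          hW.mul (((hH.measurable.comp (hrm _)).norm.pow_const 2).ennreal_ofReal)
        rw [lintegral_const_mul _ (Finset.measurable_sum _ hm1), lintegral_finsetSum _ hm1]
    _ = ENNReal.ofReal ((q : ℝ)⁻¹) * ∑ j ∈ Finset.range q,
          ∫⁻ x, W x * ENNReal.ofReal (‖H x‖ ^ 2) := by
        congr 1
        refine Finset.sum_congr rfl fun j _ => ?_
        have h1 := (mp_rot (n := n) (j * (2 * Real.pi / q))).lintegral_comp hm0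
        simp only [hWr] at h1
        exact h1
    _ = ∫⁻ x, W x * ENNReal.ofReal (‖H x‖ ^ 2) := by
        rw [Finset.sum_const, Finset.card_range, nsmul_eq_mul, ← mul_assoc]
        have : ENNReal.ofReal ((q : ℝ)⁻¹) * (q : ℝ≥0∞) = 1 := by
          rw [← ENNReal.ofReal_natCast, ← ENNReal.ofReal_mul (by positivity),
            inv_mul_cancel₀ hqR.ne', ENNReal.ofReal_one]
        rw [this, one_mul]

/-- The bound of the angular derivative by the gradient. -/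
theorem Dφ_le (G : (Fin (n + 2) → ℝ) → ℂ) (x : Fin (n + 2) → ℝ) :
    ‖Dφ G x‖ ^ 2 ≤ nn x * (‖fderiv ℝ G x (Pi.single 0 1)‖ ^ 2 +
      ‖fderiv ℝ G x (Pi.single 1 1)‖ ^ 2) := by
  have h : J x = (-x 1) • (Pi.single 0 1 : Fin (n + 2) → ℝ) +
      (x 0) • (Pi.single 1 1 : Fin (n + 2) → ℝ) := by
    funext i
    simp only [Pi.add_apply, Pi.smul_apply, smul_eq_mul]
    by_cases h0 : i = 0
    · subst h0
      rw [J0, Pi.single_eq_same, Pi.single_eq_of_ne one_ne.symm]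
      ring
    · by_cases h1 : i = 1
      · subst h1
        rw [J1, Pi.single_eq_same, Pi.single_eq_of_ne one_ne]
        ring
      · rw [Ji _ i h0 h1, Pi.single_eq_of_ne h0, Pi.single_eq_of_ne h1]
        ring
  unfold Dφ
  rw [h, map_add, map_smul, map_smul]
  set a := ‖fderiv ℝ G x (Pi.single 0 1)‖ with ha
  set b := ‖fderiv ℝ G x (Pi.single 1 1)‖ with hb
  have h1 : ‖(-x 1) • fderiv ℝ G x (Pi.single 0 1) + x 0 • fderiv ℝ G x (Pi.single 1 1)‖ ≤
      |x 1| * a + |x 0| * b := by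
    refine (norm_add_le _ _).trans (le_of_eq ?_)
    rw [norm_smul, norm_smul, Real.norm_eq_abs, Real.norm_eq_abs, abs_neg]
  have h2 := pow_le_pow_left₀ (norm_nonneg _) h1 2
  refine h2.trans ?_
  unfold nn
  nlinarith [sq_nonneg (|x 1| * b - |x 0| * a), sq_abs (x 0), sq_abs (x 1)]

end Run7.h444.LTR
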