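import Pool.Agent.Run7.h444.LTR.D

/-! The Hardy inequality for functions of the Sobolev space which are equivariant under a
rotation: the limit. -/

set_option autoImplicit false

open MeasureTheory Set Filter Topology ENNReal
open scoped Convolution

namespace Run7.h444.LTR

open LTd

variable {n : ℕ}

theorem ae_rot {p : (Fin (n + 2) → ℝ) → Prop} (θ : ℝ) (h : ∀ᵐ x, p x) : ∀ᵐ x, p (rot θ x) :=
  (mp_rot θ).quasiMeasurePreserving.ae h

theorem equiv_pow {u : (Fin (n + 2) → ℝ) → ℂ} {α : ℝ} {ζ : ℂ}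
    (heq : ∀ᵐ x, u (rot α x) = ζ * u x) (j : ℕ) :
    ∀ᵐ x, u (rot (j * α) x) = ζ ^ j * u x := by
  induction j with
  | zero => 
    refine Eventually.of_forall fun x => ?_
    rw [Nat.cast_zero, zero_mul, rot_zero, pow_zero, one_mul]
  | succ j ih =>
    filter_upwards [ih, ae_rot (j * α) heq] with x h1 h2
    rw [rot_rot] at h2
    have e : α + (j : ℝ) * α = ((j + 1 : ℕ) : ℝ) * α := by push_cast; ring
    rw [e] at h2
    rw [h2, h1, pow_succ]
    ring

theorem zeta_props (q : ℕ) (r : ℤ) (hq : 0 < q) :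
    (Complex.exp (2 * Real.pi * (((r : ℝ) / q : ℝ) : ℂ) * Complex.I)) ^ q = 1 ∧
    ‖Complex.exp (2 * Real.pi * (((r : ℝ) / q : ℝ) : ℂ) * Complex.I)‖ = 1 := by
  have hqC : (q : ℂ) ≠ 0 := by exact_mod_cast hq.ne'
  constructor
  · rw [← Complex.exp_nat_mul]
    have e : (q : ℂ) * (2 * Real.pi * (((r : ℝ) / q : ℝ) : ℂ) * Complex.I) =
        r * (2 * Real.pi * Complex.I) := by
      push_cast
      field_simp
    rw [e]
    exact Complex.exp_int_mul_two_pi_mul_I r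
  · have e : (2 * Real.pi * (((r : ℝ) / q : ℝ) : ℂ) * Complex.I) =
        ((2 * Real.pi * ((r : ℝ) / q) : ℝ) : ℂ) * Complex.I := by push_cast; ring
    rw [e]
    exact Complex.norm_exp_ofReal_mul_I _

/-- The approximation of a function of the Sobolev space. -/
theorem approxC {u : (Fin (n + 2) → ℝ) → ℂ} {g : Fin (n + 2) → (Fin (n + 2) → ℝ) → ℂ}
    (hu : WGradC u g) : ∃ F : ℕ → (Fin (n + 2) → ℝ) → ℂ, (∀ k, ContDiff ℝ 1 (F k)) ∧
      (∀ᵐ x, Tendsto (fun k => F k x) atTop (𝓝 (u x))) ∧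
      ∀ k i, ∫⁻ x, ENNReal.ofReal (‖fderiv ℝ (F k) x (Pi.single i 1)‖ ^ 2) ≤
        ENNReal.ofReal (∫ x, ‖g i x‖ ^ 2) := by
  obtain ⟨φ, hφ⟩ := conv_ae (d := n + 2)
  obtain ⟨hR, hI⟩ := split_complex hu
  set A : ℕ → (Fin (n + 2) → ℝ) → ℝ := fun k =>
    ((φ k).normed volume ⋆[ContinuousLinearMap.lsmul ℝ ℝ, volume] fun x => (u x).re) with hA
  set B : ℕ → (Fin (n + 2) → ℝ) → ℝ := fun k =>
    ((φ k).normed volume ⋆[ContinuousLinearMap.lsmul ℝ ℝ, volume] fun x => (u x).im) with hB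
  have hAd : ∀ k, ContDiff ℝ 1 (A k) := fun k => (conv_diff (φ k) hR).1
  have hBd : ∀ k, ContDiff ℝ 1 (B k) := fun k => (conv_diff (φ k) hI).1
  refine ⟨fun k x => (A k x : ℂ) + (B k x : ℂ) * Complex.I, fun k => ?_, ?_, fun k i => ?_⟩
  · exact (Complex.ofRealCLM.contDiff.comp (hAd k)).add
      ((Complex.ofRealCLM.contDiff.comp (hBd k)).mul contDiff_const)
  · filter_upwards [hφ _ hR.f2, hφ _ hI.f2] with x h1 h2
    have h3 := ((Complex.continuous_ofReal.tendsto _).comp h1).add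
      (((Complex.continuous_ofReal.tendsto _).comp h2).mul_const Complex.I)
    rw [Complex.re_add_im] at h3
    exact h3
  · have h1 : ∀ x, fderiv ℝ (fun x => (A k x : ℂ) + (B k x : ℂ) * Complex.I) x
        (Pi.single i 1) = (pd i (A k) x : ℂ) + (pd i (B k) x : ℂ) * Complex.I := by
      intro x
      have a1 : HasFDerivAt (A k) (fderiv ℝ (A k) x) x :=
        ((hAd k).differentiable (by norm_num) x).hasFDerivAt
      have b1 : HasFDerivAt (B k) (fderiv ℝ (B k) x) x :=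
        ((hBd k).differentiable (by norm_num) x).hasFDerivAt
      have a2 := Complex.ofRealCLM.hasFDerivAt.comp x a1
      have b2 := (Complex.ofRealCLM.hasFDerivAt.comp x b1).mul_const Complex.I
      have h := (a2.add b2).fderiv
      have e : (fun x => (A k x : ℂ) + (B k x : ℂ) * Complex.I) =
          ((⇑Complex.ofRealCLM ∘ A k) + fun y => (⇑Complex.ofRealCLM ∘ B k) y * Complex.I) := rfl
      rw [e, h]
      simp only [_root_.add_apply, ContinuousLinearMap.comp_apply,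
        Complex.ofRealCLM_apply, pd]
      congr 1
      simp [mul_comm]
    have p1 := fun x => (conv_diff (φ k) hR).2 i x
    have p2 := fun x => (conv_diff (φ k) hI).2 i x
    have c1 := conv_L2 (φ k) (hR.g2 i)
    have c2 := conv_L2 (φ k) (hI.g2 i)
    simp only [h1]
    have e1 : ∀ x, ‖((pd i (A k) x : ℝ) : ℂ) + ((pd i (B k) x : ℝ) : ℂ) * Complex.I‖ ^ 2 =
        ((φ k).normed volume ⋆[ContinuousLinearMap.lsmul ℝ ℝ, volume] fun x => (g i x).re) x ^ 2 +
        ((φ k).normed volume ⋆[ContinuousLinearMap.lsmul ℝ ℝ, volume] fun x => (g i x).im) x ^ 2 := by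
      intro x
      rw [Complex.sq_norm, Complex.normSq_add_mul_I]
      show pd i (A k) x ^ 2 + pd i (B k) x ^ 2 = _
      rw [p1, p2]
    simp only [e1]
    have hint : Integrable (fun x =>
        ((φ k).normed volume ⋆[ContinuousLinearMap.lsmul ℝ ℝ, volume] fun x => (g i x).re) x ^ 2 +
        ((φ k).normed volume ⋆[ContinuousLinearMap.lsmul ℝ ℝ, volume] fun x => (g i x).im) x ^ 2)
        volume := c1.2.1.add c2.2.1
    rw [← ofReal_integral_eq_lintegral_ofReal hint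
      (Eventually.of_forall fun x => add_nonneg (sq_nonneg _) (sq_nonneg _))]
    refine ENNReal.ofReal_le_ofReal ?_
    rw [integral_add c1.2.1 c2.2.1]
    have e2 : ∀ x, ‖g i x‖ ^ 2 = (g i x).re ^ 2 + (g i x).im ^ 2 := by
      intro x
      rw [Complex.sq_norm, Complex.normSq_apply]
      ring
    simp only [e2]
    rw [integral_add (hR.g2 i).integrable_sq (hI.g2 i).integrable_sq]
    exact add_le_add c1.2.2 c2.2.2

theorem hardyH1 (q : ℕ) (r : ℤ) (hq : 0 < q) (hr : 2 * |r| ≤ q) {u : (Fin (n + 2) → ℝ) → ℂ}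
    {g : Fin (n + 2) → (Fin (n + 2) → ℝ) → ℂ} (hu : WGradC u g)
    (heq : ∀ᵐ x, u (rot (2 * Real.pi / q) x) =
      Complex.exp (2 * Real.pi * ((r / q : ℝ) : ℂ) * Complex.I) * u x)
    (w : (Fin (n + 2) → ℝ) → ℝ) (hw : Continuous w) (hw0 : ∀ x, 0 ≤ w x)
    (hwr : ∀ θ x, w (rot θ x) = w x) (hwn : ∀ x, w x * nn x ≤ 1) :
    ∫⁻ x, ENNReal.ofReal ((r : ℝ) ^ 2) * (ENNReal.ofReal (w x) * ENNReal.ofReal (‖u x‖ ^ 2)) ≤
      ENNReal.ofReal ((∫ x, ‖g 0 x‖ ^ 2) + ∫ x, ‖g 1 x‖ ^ 2) := by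
  obtain ⟨F, hF, hFu, hFg⟩ := approxC hu
  set ζ : ℂ := Complex.exp (2 * Real.pi * ((r / q : ℝ) : ℂ) * Complex.I) with hζ
  obtain ⟨hζq, hζn⟩ := zeta_props q r hq
  have hζ0 : ζ ≠ 0 := Complex.exp_ne_zero _
  have hqC : (q : ℂ) ≠ 0 := by exact_mod_cast hq.ne'
  have hWm : Measurable fun x => ENNReal.ofReal (w x) := hw.measurable.ennreal_ofReal
  have hWr : ∀ θ x, ENNReal.ofReal (w (rot θ x)) = ENNReal.ofReal (w x) := by
    intro θ x; rw [hwr]
  -- the limit
  have hlim : ∀ᵐ x, Tendsto (fun k => Pr q ζ (F k) x) atTop (𝓝 (u x)) := by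
    have h1 : ∀ᵐ x, ∀ j : ℕ, Tendsto (fun k => F k (rot (j * (2 * Real.pi / q)) x)) atTop
        (𝓝 (u (rot (j * (2 * Real.pi / q)) x))) :=
      ae_all_iff.2 fun j => ae_rot _ hFu
    have h2 : ∀ᵐ x, ∀ j : ℕ, u (rot (j * (2 * Real.pi / q)) x) = ζ ^ j * u x :=
      ae_all_iff.2 fun j => equiv_pow heq j
    filter_upwards [h1, h2] with x a b
    have h3 : Tendsto (fun k => Pr q ζ (F k) x) atTop (𝓝 ((q : ℂ)⁻¹ *
        ∑ j ∈ Finset.range q, (ζ⁻¹) ^ j * (ζ ^ j * u x))) := by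
      unfold Pr
      refine Tendsto.const_mul _ (tendsto_finsetSum _ fun j _ => Tendsto.const_mul _ ?_)
      rw [← b j]
      exact a j
    have h4 : (q : ℂ)⁻¹ * ∑ j ∈ Finset.range q, (ζ⁻¹) ^ j * (ζ ^ j * u x) = u x := by
      have : ∀ j ∈ Finset.range q, (ζ⁻¹) ^ j * (ζ ^ j * u x) = u x := by
        intro j _
        rw [← mul_assoc, ← mul_pow, inv_mul_cancel₀ hζ0, one_pow, one_mul]
      rw [Finset.sum_congr rfl this, Finset.sum_const, Finset.card_range, nsmul_eq_mul,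
        inv_mul_cancel_left₀ hqC]
    rwa [h4] at h3
  -- the bound
  have hb : ∀ k, ∫⁻ x, ENNReal.ofReal ((r : ℝ) ^ 2) * (ENNReal.ofReal (w x) *
      ENNReal.ofReal (‖Pr q ζ (F k) x‖ ^ 2)) ≤
      ENNReal.ofReal ((∫ x, ‖g 0 x‖ ^ 2) + ∫ x, ‖g 1 x‖ ^ 2) := by
    intro k
    have hPs := Pr_smooth (q := q) (ζ := ζ) (hF k)
    have hm : Measurable fun x => ENNReal.ofReal (w x) *
        ENNReal.ofReal (‖Pr q ζ (F k) x‖ ^ 2) :=
      hWm.mul (hPs.continuous.norm.pow 2).measurable.ennreal_ofReal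
    rw [lintegral_const_mul _ hm]
    refine (hardyC1 q r hq hr hPs (Pr_equiv hq hζ0 hζq (F k)) _ hWm hWr).trans ?_
    have e : Dφ (Pr q ζ (F k)) = Pr q ζ (Dφ (F k)) := funext fun x => Dφ_Pr (hF k) x
    rw [e]
    refine (lint_Pr hq hζn (Dφ_cont (hF k)) _ hWm hWr).trans ?_
    have hfc : Continuous (fderiv ℝ (F k)) := (hF k).continuous_fderiv (by norm_num)
    have hmi : ∀ i, Measurable fun x =>
        ENNReal.ofReal (‖fderiv ℝ (F k) x (Pi.single i 1)‖ ^ 2) := fun i =>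
      ((hfc.clm_apply continuous_const).norm.pow 2).measurable.ennreal_ofReal
    calc ∫⁻ x, ENNReal.ofReal (w x) * ENNReal.ofReal (‖Dφ (F k) x‖ ^ 2)
        ≤ ∫⁻ x, (ENNReal.ofReal (‖fderiv ℝ (F k) x (Pi.single 0 1)‖ ^ 2) +
            ENNReal.ofReal (‖fderiv ℝ (F k) x (Pi.single 1 1)‖ ^ 2)) := by
          refine lintegral_mono fun x => ?_
          rw [← ENNReal.ofReal_mul (hw0 x), ← ENNReal.ofReal_add (by positivity) (by positivity)]
          refine ENNReal.ofReal_le_ofReal ?_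
          have h1 := mul_le_mul_of_nonneg_left (Dφ_le (F k) x) (hw0 x)
          refine h1.trans ?_
          rw [← mul_assoc]
          exact mul_le_of_le_one_left (by positivity) (hwn x)
      _ = (∫⁻ x, ENNReal.ofReal (‖fderiv ℝ (F k) x (Pi.single 0 1)‖ ^ 2)) +
          ∫⁻ x, ENNReal.ofReal (‖fderiv ℝ (F k) x (Pi.single 1 1)‖ ^ 2) :=
          lintegral_add_left (hmi 0) _
      _ ≤ ENNReal.ofReal (∫ x, ‖g 0 x‖ ^ 2) + ENNReal.ofReal (∫ x, ‖g 1 x‖ ^ 2) :=
          add_le_add (hFg k 0) (hFg k 1)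
      _ = _ := (ENNReal.ofReal_add (integral_nonneg fun _ => by positivity)
          (integral_nonneg fun _ => by positivity)).symm
  have hcl : ∫⁻ x, ENNReal.ofReal ((r : ℝ) ^ 2) * (ENNReal.ofReal (w x) *
      ENNReal.ofReal (‖u x‖ ^ 2)) = ∫⁻ x, liminf (fun k => ENNReal.ofReal ((r : ℝ) ^ 2) *
      (ENNReal.ofReal (w x) * ENNReal.ofReal (‖Pr q ζ (F k) x‖ ^ 2))) atTop := by
    refine lintegral_congr_ae ?_
    filter_upwards [hlim] with x hx
    refine (Tendsto.liminf_eq ?_).symm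
    have h1 : Tendsto (fun k => ‖Pr q ζ (F k) x‖ ^ 2) atTop (𝓝 (‖u x‖ ^ 2)) := hx.norm.pow 2
    have h2 := ENNReal.tendsto_ofReal h1
    exact ENNReal.Tendsto.const_mul (ENNReal.Tendsto.const_mul h2 (Or.inr ENNReal.ofReal_ne_top))
      (Or.inr ENNReal.ofReal_ne_top)
  rw [hcl]
  refine (lintegral_liminf_le fun k => ?_).trans ?_
  · have hPs := Pr_smooth (q := q) (ζ := ζ) (hF k)
    exact measurable_const.mul (hWm.mul (hPs.continuous.norm.pow 2).measurable.ennreal_ofReal)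
  · refine Filter.liminf_le_of_le (by isBoundedDefault) fun b hb' => ?_
    obtain ⟨k, hk⟩ := hb'.exists
    exact hk.trans (hb k)

end Run7.h444.LTR
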