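import Pool.Agent.N96.LF.B

/-! Localisation of the kinetic energy inequality by bounded smooth functions. -/

set_option autoImplicit false

open MeasureTheory Set Filter Topology Real

namespace Run7.h444.LTR

open LTd Pool.Agent.R282.KO Pool.Agent.N96.LF

variable {d : ℕ}

/-- Bounded smooth functions with bounded derivatives. -/
structure Bdd (χ : (Fin d → ℝ) → ℝ) : Prop where
  smooth : ContDiff ℝ (⊤ : ℕ∞) χ
  b0 : ∃ C : ℝ, ∀ x, |χ x| ≤ C
  b1 : ∀ k, ∃ C : ℝ, ∀ x, |pd k χ x| ≤ C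

theorem memLp_mulB {f : (Fin d → ℝ) → ℂ} (hf : MemLp f 2 volume) {w : (Fin d → ℝ) → ℝ}
    (hw : Continuous w) (hc : ∃ C : ℝ, ∀ x, |w x| ≤ C) :
    MemLp (fun x => (w x : ℂ) * f x) 2 volume := by
  obtain ⟨C, hC⟩ := hc
  refine MemLp.of_le_mul (c := C) hf
    ((Complex.continuous_ofReal.comp hw).aestronglyMeasurable.mul hf.1)
    (Eventually.of_forall fun x => ?_)
  rw [norm_mul, Complex.norm_real]
  exact mul_le_mul_of_nonneg_right (hC x) (norm_nonneg _)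

theorem wgrad_mulB {u : (Fin d → ℝ) → ℂ} {g : Fin d → (Fin d → ℝ) → ℂ} (hu : WGradC u g)
    {χ : (Fin d → ℝ) → ℝ} (hB : Bdd χ) :
    WGradC (fun x => (χ x : ℂ) * u x)
      (fun k x => (χ x : ℂ) * g k x + (pd k χ x : ℂ) * u x) := by
  have hχ := hB.smooth
  have hχc := hχ.continuous
  refine ⟨memLp_mulB hu.f2 hχc hB.b0, fun k => (memLp_mulB (hu.g2 k) hχc hB.b0).add
    (memLp_mulB hu.f2 (pd_cont hχ k) (hB.b1 k)), fun k φ hφ hφc => ?_⟩
  have h1 := hu.weak k (fun x => χ x * φ x) (hχ.mul hφ) hφc.mul_left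
  simp only [pd_mul hχ hφ k] at h1
  have i1 : Integrable fun x => u x * ((χ x * pd k φ x : ℝ) : ℂ) :=
    int_mul hu.f2 (hχc.mul (pd_cont hφ k)) ((pd_supp hφc k).mul_left)
  have i2 : Integrable fun x => u x * ((pd k χ x * φ x : ℝ) : ℂ) :=
    int_mul hu.f2 ((pd_cont hχ k).mul hφ.continuous) (hφc.mul_left)
  have i3 : Integrable fun x => g k x * ((χ x * φ x : ℝ) : ℂ) :=
    int_mul (hu.g2 k) (hχc.mul hφ.continuous) (hφc.mul_left)
  have e1 : ∀ x, u x * ((χ x * pd k φ x + pd k χ x * φ x : ℝ) : ℂ) =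
      u x * ((χ x * pd k φ x : ℝ) : ℂ) + u x * ((pd k χ x * φ x : ℝ) : ℂ) := by
    intro x; push_cast; ring
  simp only [e1] at h1
  rw [integral_add i1 i2] at h1
  have e2 : ∀ x, (χ x : ℂ) * u x * (pd k φ x : ℂ) = u x * ((χ x * pd k φ x : ℝ) : ℂ) := by
    intro x; push_cast; ring
  have e3 : ∀ x, ((χ x : ℂ) * g k x + (pd k χ x : ℂ) * u x) * (φ x : ℂ) =
      g k x * ((χ x * φ x : ℝ) : ℂ) + u x * ((pd k χ x * φ x : ℝ) : ℂ) := by
    intro x; push_cast; ring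
  simp only [e2, e3]
  rw [integral_add i3 i2]
  linear_combination h1

/-- The inequality for one cutoff. -/
theorem cellB (hd : 1 ≤ d) {N : ℕ} (u : Fin N → (Fin d → ℝ) → ℂ)
    (g : Fin N → Fin d → (Fin d → ℝ) → ℂ) (hu : ∀ i, WGradC (u i) (g i))
    {χ : (Fin d → ℝ) → ℝ} (hB : Bdd χ)
    (hgram : ∀ a : Fin N → ℂ, ∫ x, χ x ^ 2 * ‖∑ i, a i * u i x‖ ^ 2 ≤ ∑ i, ‖a i‖ ^ 2) :
    Integrable (fun x => (χ x ^ 2) ^ (1 + 2 / (d : ℝ)) * rho u x ^ (1 + 2 / (d : ℝ))) ∧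
    (3 / 4 : ℝ) ^ (1 / (d : ℝ)) * Kcl d *
        ∫ x, (χ x ^ 2) ^ (1 + 2 / (d : ℝ)) * rho u x ^ (1 + 2 / (d : ℝ)) ≤
      ∑ i, ∑ k, ∫ x, ‖(χ x : ℂ) * g i k x + (pd k χ x : ℂ) * u i x‖ ^ 2 := by
  have hn2 : ∀ (x : Fin d → ℝ) (z : ℂ), ‖(χ x : ℂ) * z‖ ^ 2 = χ x ^ 2 * ‖z‖ ^ 2 := by
    intro x z
    rw [norm_mul, Complex.norm_real, Real.norm_eq_abs, mul_pow, sq_abs]
  have h1 := sub_thm d hd N (fun i x => (χ x : ℂ) * u i x)
    (fun i k x => (χ x : ℂ) * g i k x + (pd k χ x : ℂ) * u i x)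
    (fun i => wgrad_mulB (hu i) hB) ?_
  · have e1 : ∀ x, (∑ i, ‖(χ x : ℂ) * u i x‖ ^ 2) ^ (1 + 2 / (d : ℝ)) =
        (χ x ^ 2) ^ (1 + 2 / (d : ℝ)) * rho u x ^ (1 + 2 / (d : ℝ)) := by
      intro x
      have h0 : ∑ i, ‖(χ x : ℂ) * u i x‖ ^ 2 = χ x ^ 2 * rho u x := by
        unfold rho
        rw [Finset.mul_sum]
        exact Finset.sum_congr rfl fun i _ => hn2 x _
      rw [h0, Real.mul_rpow (sq_nonneg _) (rho_nonneg u x)]
    simp only [e1] at h1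
    exact h1
  · intro a
    have h2 : ∀ x, ‖∑ i, a i * ((χ x : ℂ) * u i x)‖ ^ 2 =
        χ x ^ 2 * ‖∑ i, a i * u i x‖ ^ 2 := by
      intro x
      rw [← hn2]
      congr 2
      rw [Finset.mul_sum]
      exact Finset.sum_congr rfl fun i _ => by ring
    simp only [h2]
    exact hgram a

/-- The sum of the energies of the cut functions. -/
theorem energy_sum {N : ℕ} (u : Fin N → (Fin d → ℝ) → ℂ)
    (g : Fin N → Fin d → (Fin d → ℝ) → ℂ) (hu : ∀ i, WGradC (u i) (g i))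
    {m : ℕ} {χ : Fin m → (Fin d → ℝ) → ℝ} (hB : ∀ j, Bdd (χ j)) (M : ℝ)
    (hsum : ∀ x, ∑ j, χ j x ^ 2 = M) {V : (Fin d → ℝ) → ℝ}
    (hV : ∀ x, ∑ k, ∑ j, pd k (χ j) x ^ 2 ≤ V x)
    (hVi : ∀ i, Integrable fun x => V x * ‖u i x‖ ^ 2) :
    ∑ j, ∑ i, ∑ k, ∫ x, ‖(χ j x : ℂ) * g i k x + (pd k (χ j) x : ℂ) * u i x‖ ^ 2 ≤
      M * (∑ i, ∑ k, ∫ x, ‖g i k x‖ ^ 2) + ∑ i, ∫ x, V x * ‖u i x‖ ^ 2 := by
  have hcross : ∀ k x, ∑ j, χ j x * pd k (χ j) x = 0 := by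
    intro k x
    have hd : ∀ j ∈ (Finset.univ : Finset (Fin m)),
        HasFDerivAt (fun x => χ j x ^ 2) ((2 * χ j x) • fderiv ℝ (χ j) x) x := by
      intro j _
      have h := ((hB j).smooth.differentiable (by simp) x).hasFDerivAt
      have h2 := h.pow 2
      refine h2.congr_fderiv ?_
      simp
    have h1 := HasFDerivAt.fun_sum hd
    have h2 : (fun x => ∑ j, χ j x ^ 2) = fun _ => M := funext hsum
    rw [h2] at h1
    have h3 := h1.unique (hasFDerivAt_const M x)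
    have h4 := congrArg (fun L : (Fin d → ℝ) →L[ℝ] ℝ => L (Pi.single k 1)) h3
    simp only [_root_.sum_apply, FunLike.coe_smul, Pi.smul_apply,
      smul_eq_mul, _root_.zero_apply] at h4
    have h5 : ∑ j, 2 * χ j x * (fderiv ℝ (χ j) x) (Pi.single k 1) =
        2 * ∑ j, χ j x * pd k (χ j) x := by
      rw [Finset.mul_sum]
      refine Finset.sum_congr rfl fun j _ => ?_
      unfold pd
      ring
    rw [h5] at h4
    linarith
  have hint : ∀ j i k, Integrable fun x =>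
      ‖(χ j x : ℂ) * g i k x + (pd k (χ j) x : ℂ) * u i x‖ ^ 2 := fun j i k =>
    ((wgrad_mulB (hu i) (hB j)).g2 k).integrable_norm_pow (by norm_num)
  have hg2 : ∀ i k, Integrable fun x => ‖g i k x‖ ^ 2 := fun i k =>
    ((hu i).g2 k).integrable_norm_pow (by norm_num)
  have hdu : ∀ i k, Integrable fun x => (∑ j, pd k (χ j) x ^ 2) * ‖u i x‖ ^ 2 := by
    intro i k
    have h1 : ∀ j, Integrable fun x => pd k (χ j) x ^ 2 * ‖u i x‖ ^ 2 := by
      intro j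
      have h2 := (memLp_mulB (hu i).f2 (pd_cont (hB j).smooth k) ((hB j).b1 k)).integrable_norm_pow
        (p := 2) (by norm_num)
      refine h2.congr (Eventually.of_forall fun x => ?_)
      show ‖((pd k (χ j) x : ℝ) : ℂ) * u i x‖ ^ 2 = _
      rw [norm_mul, Complex.norm_real, Real.norm_eq_abs, mul_pow, sq_abs]
    refine (integrable_finsetSum Finset.univ fun j _ => h1 j).congr
      (Eventually.of_forall fun x => ?_)
    simp only [Finset.sum_mul]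
  have key : ∀ i k, ∑ j, ∫ x, ‖(χ j x : ℂ) * g i k x + (pd k (χ j) x : ℂ) * u i x‖ ^ 2 =
      M * (∫ x, ‖g i k x‖ ^ 2) + ∫ x, (∑ j, pd k (χ j) x ^ 2) * ‖u i x‖ ^ 2 := by
    intro i k
    rw [← integral_finsetSum _ fun j _ => hint j i k, ← integral_const_mul,
      ← integral_add ((hg2 i k).const_mul M) (hdu i k)]
    refine integral_congr_ae (Eventually.of_forall fun x => ?_)
    show ∑ j, ‖(χ j x : ℂ) * g i k x + (pd k (χ j) x : ℂ) * u i x‖ ^ 2 =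
      M * ‖g i k x‖ ^ 2 + (∑ j, pd k (χ j) x ^ 2) * ‖u i x‖ ^ 2
    simp only [norm_exp]
    rw [Finset.sum_add_distrib, Finset.sum_add_distrib, ← Finset.sum_mul, ← Finset.sum_mul, hsum]
    have : ∑ j, 2 * (χ j x * pd k (χ j) x *
        ((g i k x).re * (u i x).re + (g i k x).im * (u i x).im)) = 0 := by
      have h6 : ∀ j, 2 * (χ j x * pd k (χ j) x *
          ((g i k x).re * (u i x).re + (g i k x).im * (u i x).im)) =
          (χ j x * pd k (χ j) x) * (2 * ((g i k x).re * (u i x).re +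
            (g i k x).im * (u i x).im)) := fun j => by ring
      simp only [h6]
      rw [← Finset.sum_mul, hcross, zero_mul]
    rw [this, add_zero]
  calc ∑ j, ∑ i, ∑ k, ∫ x, ‖(χ j x : ℂ) * g i k x + (pd k (χ j) x : ℂ) * u i x‖ ^ 2
      = ∑ i, ∑ k, ∑ j, ∫ x, ‖(χ j x : ℂ) * g i k x + (pd k (χ j) x : ℂ) * u i x‖ ^ 2 := by
        rw [Finset.sum_comm]
        refine Finset.sum_congr rfl fun i _ => ?_
        rw [Finset.sum_comm]
    _ = ∑ i, ∑ k, (M * (∫ x, ‖g i k x‖ ^ 2) +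
        ∫ x, (∑ j, pd k (χ j) x ^ 2) * ‖u i x‖ ^ 2) := by
        refine Finset.sum_congr rfl fun i _ => Finset.sum_congr rfl fun k _ => key i k
    _ = M * (∑ i, ∑ k, ∫ x, ‖g i k x‖ ^ 2) +
        ∑ i, ∑ k, ∫ x, (∑ j, pd k (χ j) x ^ 2) * ‖u i x‖ ^ 2 := by
        simp only [Finset.sum_add_distrib, Finset.mul_sum]
    _ ≤ _ := by
        refine add_le_add le_rfl (Finset.sum_le_sum fun i _ => ?_)
        rw [← integral_finsetSum _ fun k _ => hdu i k]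
        refine integral_mono (integrable_finsetSum _ fun k _ => hdu i k) (hVi i) fun x => ?_
        show ∑ k, (∑ j, pd k (χ j) x ^ 2) * ‖u i x‖ ^ 2 ≤ V x * ‖u i x‖ ^ 2
        rw [← Finset.sum_mul]
        exact mul_le_mul_of_nonneg_right (hV x) (by positivity)

end Run7.h444.LTR
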