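import Pool.Agent.Run7.h444.LTR.E
import Pool.Agent.Run7.h444.LTR.F

/-! The kinetic energy inequality for equivariant systems: the inequality for a family of cut
functions. -/

set_option autoImplicit false

open MeasureTheory Set Filter Topology

namespace Run7.h444.LTR

open LTd Pool.Agent.R282.KO Pool.Agent.N96.LF

variable {n : ℕ}

/-- The rotation as an equivalence. -/
noncomputable def rotE (θ : ℝ) : (Fin (n + 2) → ℝ) ≃ᵐ (Fin (n + 2) → ℝ) where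
  toFun := rot θ
  invFun := rot (-θ)
  left_inv x := by rw [rot_rot, neg_add_cancel, rot_zero]
  right_inv x := by rw [rot_rot, add_neg_cancel, rot_zero]
  measurable_toFun := (mp_rot θ).measurable
  measurable_invFun := (mp_rot (-θ)).measurable

theorem integral_rot (θ : ℝ) (f : (Fin (n + 2) → ℝ) → ℝ) : ∫ x, f (rot θ x) = ∫ x, f x :=
  (mp_rot θ).integral_comp (rotE θ).measurableEmbedding f

/-- A family of cut functions. -/
structure Cuts (q : ℕ) {m : ℕ} (M C : ℝ) (χ : Fin m → (Fin (n + 2) → ℝ) → ℝ)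
    (w : (Fin (n + 2) → ℝ) → ℝ) : Prop where
  bdd : ∀ j, Bdd (χ j)
  sum : ∀ x, ∑ j, χ j x ^ 2 = M
  avg : ∀ j x, ∑ i ∈ Finset.range q, χ j (rot (i * (2 * Real.pi / q)) x) ^ 2 = q
  grad : ∀ x, ∑ k, ∑ j, pd k (χ j) x ^ 2 ≤ C * w x
  wc : Continuous w
  w0 : ∀ x, 0 ≤ w x
  wr : ∀ θ x, w (rot θ x) = w x
  wn : ∀ x, w x * nn x ≤ 1
  wb : ∃ B : ℝ, ∀ x, w x ≤ B

theorem sq_int {u : (Fin (n + 2) → ℝ) → ℂ} (hu : MemLp u 2 volume) :
    Integrable fun x => ‖u x‖ ^ 2 := hu.integrable_norm_pow (by norm_num)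

theorem bdd_int {u : (Fin (n + 2) → ℝ) → ℂ} (hu : MemLp u 2 volume)
    {f : (Fin (n + 2) → ℝ) → ℝ} (hf : Continuous f) {B : ℝ} (hB : ∀ x, |f x| ≤ B) :
    Integrable fun x => f x * ‖u x‖ ^ 2 :=
  (sq_int hu).bdd_mul hf.aestronglyMeasurable (c := B) (Eventually.of_forall fun x => hB x)

/-- The average of the cut function. -/
theorem gram_avg {q : ℕ} (hq : 0 < q) {χ : (Fin (n + 2) → ℝ) → ℝ} (hχ : Bdd χ)
    (havg : ∀ x, ∑ i ∈ Finset.range q, χ (rot (i * (2 * Real.pi / q)) x) ^ 2 = q)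
    {v : (Fin (n + 2) → ℝ) → ℂ} (hv : MemLp v 2 volume) {ζ : ℂ} (hζ : ‖ζ‖ = 1)
    (heq : ∀ᵐ x, v (rot (2 * Real.pi / q) x) = ζ * v x) :
    ∫ x, χ x ^ 2 * ‖v x‖ ^ 2 = ∫ x, ‖v x‖ ^ 2 := by
  have hqR : (0 : ℝ) < q := by exact_mod_cast hq
  obtain ⟨B, hB⟩ := hχ.b0
  have hc : Continuous χ := hχ.smooth.continuous
  have h1 : ∀ i : ℕ, ∫ x, χ x ^ 2 * ‖v x‖ ^ 2 =
      ∫ x, χ (rot (i * (2 * Real.pi / q)) x) ^ 2 * ‖v x‖ ^ 2 := by
    intro i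
    rw [← integral_rot (i * (2 * Real.pi / q))]
    refine integral_congr_ae ?_
    filter_upwards [equiv_pow heq i] with x hx
    rw [hx, norm_mul, norm_pow, hζ, one_pow, one_mul]
  have hint : ∀ i ∈ Finset.range q, Integrable fun x =>
      χ (rot ((i : ℕ) * (2 * Real.pi / q)) x) ^ 2 * ‖v x‖ ^ 2 := by
    intro i _
    refine bdd_int hv ((hc.comp (rot_cont' _)).pow 2) (B := B ^ 2) fun x => ?_
    rw [abs_pow]
    exact pow_le_pow_left₀ (abs_nonneg _) (hB _) 2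
  have h2 : (q : ℝ) * ∫ x, χ x ^ 2 * ‖v x‖ ^ 2 = (q : ℝ) * ∫ x, ‖v x‖ ^ 2 := by
    calc (q : ℝ) * ∫ x, χ x ^ 2 * ‖v x‖ ^ 2
        = ∑ i ∈ Finset.range q, ∫ x, χ x ^ 2 * ‖v x‖ ^ 2 := by
          rw [Finset.sum_const, Finset.card_range, nsmul_eq_mul]
      _ = ∑ i ∈ Finset.range q, ∫ x, χ (rot (i * (2 * Real.pi / q)) x) ^ 2 * ‖v x‖ ^ 2 :=
          Finset.sum_congr rfl fun i _ => h1 i
      _ = ∫ x, ∑ i ∈ Finset.range q, χ (rot (i * (2 * Real.pi / q)) x) ^ 2 * ‖v x‖ ^ 2 :=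
          (integral_finsetSum _ hint).symm
      _ = (q : ℝ) * ∫ x, ‖v x‖ ^ 2 := by
          simp only [← Finset.sum_mul, havg]
          rw [integral_const_mul]
  exact mul_left_cancel₀ hqR.ne' h2

theorem hardy_real {q : ℕ} {r : ℤ} (hq : 0 < q) (hr : 2 * |r| ≤ q)
    {u : (Fin (n + 2) → ℝ) → ℂ} {g : Fin (n + 2) → (Fin (n + 2) → ℝ) → ℂ} (hu : WGradC u g)
    (heq : ∀ᵐ x, u (rot (2 * Real.pi / q) x) =
      Complex.exp (2 * Real.pi * ((r / q : ℝ) : ℂ) * Complex.I) * u x)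
    (w : (Fin (n + 2) → ℝ) → ℝ) (hw : Continuous w) (hw0 : ∀ x, 0 ≤ w x)
    (hwr : ∀ θ x, w (rot θ x) = w x) (hwn : ∀ x, w x * nn x ≤ 1) {B : ℝ} (hB : ∀ x, w x ≤ B) :
    (r : ℝ) ^ 2 * ∫ x, w x * ‖u x‖ ^ 2 ≤ ∑ k, ∫ x, ‖g k x‖ ^ 2 := by
  have h := hardyH1 q r hq hr hu heq w hw hw0 hwr hwn
  have hi : Integrable fun x => w x * ‖u x‖ ^ 2 :=
    bdd_int hu.f2 hw (B := B) fun x => by rw [abs_of_nonneg (hw0 x)]; exact hB x
  have e : ∀ x, ENNReal.ofReal ((r : ℝ) ^ 2) * (ENNReal.ofReal (w x) *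
      ENNReal.ofReal (‖u x‖ ^ 2)) = ENNReal.ofReal ((r : ℝ) ^ 2 * (w x * ‖u x‖ ^ 2)) := by
    intro x
    rw [ENNReal.ofReal_mul (by positivity), ENNReal.ofReal_mul (hw0 x)]
  simp only [e] at h
  rw [← ofReal_integral_eq_lintegral_ofReal (hi.const_mul _)
    (Eventually.of_forall fun x => mul_nonneg (sq_nonneg _) (mul_nonneg (hw0 x) (sq_nonneg _))),
    integral_const_mul] at h
  have h0 : ∀ k, 0 ≤ ∫ x, ‖g k x‖ ^ 2 := fun k => integral_nonneg fun _ => by positivity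
  have h1 := (ENNReal.ofReal_le_ofReal_iff (add_nonneg (h0 0) (h0 1))).1 h
  refine h1.trans ?_
  have h2 : ∑ k ∈ ({0, 1} : Finset (Fin (n + 2))), ∫ x, ‖g k x‖ ^ 2 ≤ ∑ k, ∫ x, ‖g k x‖ ^ 2 :=
    Finset.sum_le_sum_of_subset_of_nonneg (Finset.subset_univ _) fun k _ _ => h0 k
  rwa [Finset.sum_pair one_ne.symm] at h2

/-- The inequality for a family of cut functions. -/
theorem main_cut {q : ℕ} {r : ℤ} (hq : 0 < q) (hr0 : r ≠ 0) (hr : 2 * |r| ≤ q) {N m : ℕ}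
    (u : Fin N → (Fin (n + 2) → ℝ) → ℂ) (g : Fin N → Fin (n + 2) → (Fin (n + 2) → ℝ) → ℂ)
    (hu : ∀ i, WGradC (u i) (g i)) (hsub : SubGram u)
    (heq : ∀ i, ∀ᵐ x, u i (rot (2 * Real.pi / q) x) =
      Complex.exp (2 * Real.pi * ((r / q : ℝ) : ℂ) * Complex.I) * u i x)
    {M C : ℝ} (hC : 0 ≤ C) {χ : Fin m → (Fin (n + 2) → ℝ) → ℝ} {w : (Fin (n + 2) → ℝ) → ℝ}
    (hχ : Cuts q M C χ w) :
    Integrable (fun x => (∑ j, (χ j x ^ 2) ^ (1 + 2 / ((n + 2 : ℕ) : ℝ))) *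
        rho u x ^ (1 + 2 / ((n + 2 : ℕ) : ℝ))) ∧
    (3 / 4 : ℝ) ^ (1 / ((n + 2 : ℕ) : ℝ)) * Kcl (n + 2) *
      ∫ x, (∑ j, (χ j x ^ 2) ^ (1 + 2 / ((n + 2 : ℕ) : ℝ))) *
        rho u x ^ (1 + 2 / ((n + 2 : ℕ) : ℝ)) ≤ (M + C / (r : ℝ) ^ 2) * kin g := by
  obtain ⟨B, hB⟩ := hχ.wb
  have hζ := (zeta_props q r hq).2
  set ζ : ℂ := Complex.exp (2 * Real.pi * ((r / q : ℝ) : ℂ) * Complex.I) with hζdef
  have hr2 : (0 : ℝ) < (r : ℝ) ^ 2 := by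
    have : (r : ℝ) ≠ 0 := by exact_mod_cast hr0
    positivity
  have hcell : ∀ j, _ := fun j => cellB (d := n + 2) (by omega) u g hu (hχ.bdd j) (fun a => by
    have hv : MemLp (fun x => ∑ i, a i * u i x) 2 volume :=
      memLp_finsetSum _ fun i _ => (hu i).f2.const_mul (a i)
    have hve : ∀ᵐ x, (fun x => ∑ i, a i * u i x) (rot (2 * Real.pi / q) x) =
        ζ * (fun x => ∑ i, a i * u i x) x := by
      filter_upwards [ae_all_iff.2 heq] with x hx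
      simp only [hx]
      rw [Finset.mul_sum]
      exact Finset.sum_congr rfl fun i _ => by ring
    rw [gram_avg hq (hχ.bdd j) (hχ.avg j) hv hζ hve]
    exact hsub a)
  have hVi : ∀ i, Integrable fun x => (C * w x) * ‖u i x‖ ^ 2 := fun i => by
    refine bdd_int (hu i).f2 (continuous_const.mul hχ.wc) (B := C * B) fun x => ?_
    rw [abs_of_nonneg (mul_nonneg hC (hχ.w0 x))]
    exact mul_le_mul_of_nonneg_left (hB x) hC
  have hen := energy_sum u g hu hχ.bdd M hχ.sum (V := fun x => C * w x) hχ.grad hVi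
  have hh : ∀ i, ∫ x, (C * w x) * ‖u i x‖ ^ 2 ≤ C / (r : ℝ) ^ 2 * ∑ k, ∫ x, ‖g i k x‖ ^ 2 := by
    intro i
    have h1 := hardy_real hq hr (hu i) (heq i) w hχ.wc hχ.w0 hχ.wr hχ.wn hB
    have e : ∀ x, (C * w x) * ‖u i x‖ ^ 2 = C * (w x * ‖u i x‖ ^ 2) := fun x => by ring
    simp only [e]
    rw [integral_const_mul, div_mul_eq_mul_div, le_div_iff₀ hr2]
    calc C * (∫ x, w x * ‖u i x‖ ^ 2) * (r : ℝ) ^ 2 =
        C * ((r : ℝ) ^ 2 * ∫ x, w x * ‖u i x‖ ^ 2) := by ring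
      _ ≤ _ := mul_le_mul_of_nonneg_left h1 hC
  have hsum := Finset.sum_le_sum fun j (_ : j ∈ (Finset.univ : Finset (Fin m))) => (hcell j).2
  rw [← Finset.mul_sum] at hsum
  have e2 : ∫ x, (∑ j, (χ j x ^ 2) ^ (1 + 2 / ((n + 2 : ℕ) : ℝ))) *
      rho u x ^ (1 + 2 / ((n + 2 : ℕ) : ℝ)) =
      ∑ j, ∫ x, (χ j x ^ 2) ^ (1 + 2 / ((n + 2 : ℕ) : ℝ)) *
        rho u x ^ (1 + 2 / ((n + 2 : ℕ) : ℝ)) := by
    rw [← integral_finsetSum _ fun j _ => (hcell j).1]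
    refine integral_congr_ae (Eventually.of_forall fun x => ?_)
    simp only [Finset.sum_mul]
  refine ⟨(integrable_finsetSum Finset.univ fun j _ => (hcell j).1).congr
    (Eventually.of_forall fun x => by simp only [Finset.sum_mul]), ?_⟩
  rw [e2]
  refine hsum.trans (hen.trans ?_)
  have h3 : ∑ i, ∫ x, (C * w x) * ‖u i x‖ ^ 2 ≤ C / (r : ℝ) ^ 2 * kin g := by
    unfold kin
    rw [Finset.mul_sum]
    exact Finset.sum_le_sum fun i _ => hh i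
  have h4 : ∑ i, ∑ k, ∫ x, ‖g i k x‖ ^ 2 = kin g := rfl
  rw [h4, add_mul]
  exact add_le_add le_rfl h3

end Run7.h444.LTR
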