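import Mathlib
import Pool.Agent.Run7.h444.LTR.B
import Pool.Agent.Helper717.LT.Defs

/-! Calculus of functions of the first two coordinates; trigonometric sums. -/

set_option autoImplicit false

open MeasureTheory Set Filter Topology

namespace Run7.h444.LTR

open LTd

variable {n : ℕ}

/-- The function `f` has at `x` the partial derivatives `α`, `β` in the directions `0`, `1` and its
other partial derivatives are zero. -/
def GD (f : (Fin (n + 2) → ℝ) → ℝ) (α β : ℝ) (x : Fin (n + 2) → ℝ) : Prop :=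
  HasFDerivAt f (α • (ContinuousLinearMap.proj 0 : (Fin (n + 2) → ℝ) →L[ℝ] ℝ) +
    β • (ContinuousLinearMap.proj 1 : (Fin (n + 2) → ℝ) →L[ℝ] ℝ)) x

theorem GD.pd0 {f : (Fin (n + 2) → ℝ) → ℝ} {α β : ℝ} {x : Fin (n + 2) → ℝ} (h : GD f α β x) :
    pd 0 f x = α := by
  unfold pd
  rw [h.fderiv]
  have : (Pi.single (0 : Fin (n + 2)) (1 : ℝ) : Fin (n + 2) → ℝ) 1 = 0 :=
    Pi.single_eq_of_ne one_ne _
  simp [this]

theorem GD.pd1 {f : (Fin (n + 2) → ℝ) → ℝ} {α β : ℝ} {x : Fin (n + 2) → ℝ} (h : GD f α β x) :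
    pd 1 f x = β := by
  unfold pd
  rw [h.fderiv]
  have : (Pi.single (1 : Fin (n + 2)) (1 : ℝ) : Fin (n + 2) → ℝ) 0 = 0 :=
    Pi.single_eq_of_ne one_ne.symm _
  simp [this]

theorem GD.pdi {f : (Fin (n + 2) → ℝ) → ℝ} {α β : ℝ} {x : Fin (n + 2) → ℝ} (h : GD f α β x)
    (k : Fin (n + 2)) (h0 : k ≠ 0) (h1 : k ≠ 1) : pd k f x = 0 := by
  unfold pd
  rw [h.fderiv]
  have e0 : (Pi.single k (1 : ℝ) : Fin (n + 2) → ℝ) 0 = 0 := Pi.single_eq_of_ne h0.symm _
  have e1 : (Pi.single k (1 : ℝ) : Fin (n + 2) → ℝ) 1 = 0 := Pi.single_eq_of_ne h1.symm _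
  simp [e0, e1]

theorem GD.of_eq {f : (Fin (n + 2) → ℝ) → ℝ} {α β α' β' : ℝ} {x : Fin (n + 2) → ℝ}
    (h : GD f α β x) (h1 : α = α') (h2 : β = β') : GD f α' β' x := by
  subst h1 h2; exact h

theorem GD_const (c : ℝ) (x : Fin (n + 2) → ℝ) : GD (fun _ => c) 0 0 x := by
  unfold GD
  refine (hasFDerivAt_const c x).congr_fderiv ?_
  simp

theorem GD_x0 (x : Fin (n + 2) → ℝ) : GD (fun y => y 0) 1 0 x := by
  unfold GD
  refine (hasFDerivAt_apply (𝕜 := ℝ) (0 : Fin (n + 2)) x).congr_fderiv ?_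
  simp

theorem GD_x1 (x : Fin (n + 2) → ℝ) : GD (fun y => y 1) 0 1 x := by
  unfold GD
  refine (hasFDerivAt_apply (𝕜 := ℝ) (1 : Fin (n + 2)) x).congr_fderiv ?_
  simp

theorem GD.add {f g : (Fin (n + 2) → ℝ) → ℝ} {α β α' β' : ℝ} {x : Fin (n + 2) → ℝ}
    (hf : GD f α β x) (hg : GD g α' β' x) : GD (fun y => f y + g y) (α + α') (β + β') x := by
  unfold GD at *
  refine (HasFDerivAt.fun_add hf hg).congr_fderiv ?_
  refine ContinuousLinearMap.ext fun v => ?_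
  simp
  ring

theorem GD.mul {f g : (Fin (n + 2) → ℝ) → ℝ} {α β α' β' : ℝ} {x : Fin (n + 2) → ℝ}
    (hf : GD f α β x) (hg : GD g α' β' x) :
    GD (fun y => f y * g y) (f x * α' + g x * α) (f x * β' + g x * β) x := by
  unfold GD at *
  refine (HasFDerivAt.fun_mul hf hg).congr_fderiv ?_
  refine ContinuousLinearMap.ext fun v => ?_
  simp
  ring

theorem GD.chain {f : (Fin (n + 2) → ℝ) → ℝ} {α β : ℝ} {x : Fin (n + 2) → ℝ}
    (hf : GD f α β x) {φ : ℝ → ℝ} {φ' : ℝ} (hφ : HasDerivAt φ φ' (f x)) :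
    GD (fun y => φ (f y)) (φ' * α) (φ' * β) x := by
  unfold GD at *
  refine (hφ.comp_hasFDerivAt x hf).congr_fderiv ?_
  refine ContinuousLinearMap.ext fun v => ?_
  simp
  ring

/-- The sum over the partial derivatives. -/
theorem GD.sum_sq {m : ℕ} {f : Fin m → (Fin (n + 2) → ℝ) → ℝ} {α β : Fin m → ℝ}
    {x : Fin (n + 2) → ℝ} (h : ∀ j, GD (f j) (α j) (β j) x) :
    ∑ k, ∑ j, pd k (f j) x ^ 2 = ∑ j, (α j ^ 2 + β j ^ 2) := by
  have h1 : ∑ k ∈ ({0, 1} : Finset (Fin (n + 2))), ∑ j, pd k (f j) x ^ 2 =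
      ∑ k, ∑ j, pd k (f j) x ^ 2 := by
    refine Finset.sum_subset (Finset.subset_univ _) fun k _ hk => ?_
    have h0 : k ≠ 0 := fun e => hk (by rw [e]; exact Finset.mem_insert_self _ _)
    have h1 : k ≠ 1 := fun e => hk (by
      rw [e]; exact Finset.mem_insert_of_mem (Finset.mem_singleton_self _))
    refine Finset.sum_eq_zero fun j _ => ?_
    rw [(h j).pdi k h0 h1]
    norm_num
  rw [← h1, Finset.sum_pair one_ne.symm, ← Finset.sum_add_distrib]
  refine Finset.sum_congr rfl fun j _ => ?_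
  rw [(h j).pd0, (h j).pd1]

theorem re_im_sum (s : Finset ℕ) (a b : ℕ → ℝ)
    (h : ∑ i ∈ s, ((a i : ℂ) + (b i : ℂ) * Complex.I) = 0) :
    ∑ i ∈ s, a i = 0 ∧ ∑ i ∈ s, b i = 0 := by
  have h1 : ((∑ i ∈ s, a i : ℝ) : ℂ) + ((∑ i ∈ s, b i : ℝ) : ℂ) * Complex.I = 0 := by
    rw [← h, Finset.sum_add_distrib, ← Finset.sum_mul]
    push_cast
    rfl
  constructor
  · have h2 := congrArg Complex.re h1
    rw [Complex.add_re, Complex.re_ofReal_mul, Complex.I_re, Complex.ofReal_re] at h2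
    simpa using h2
  · have h2 := congrArg Complex.im h1
    rw [Complex.add_im, Complex.im_ofReal_mul, Complex.I_im, Complex.ofReal_im] at h2
    simpa using h2

/-- Trigonometric sums. -/
theorem trig1 {q : ℕ} (hq : 2 ≤ q) :
    ∑ i ∈ Finset.range q, Real.cos (i * (2 * Real.pi / q)) = 0 ∧
    ∑ i ∈ Finset.range q, Real.sin (i * (2 * Real.pi / q)) = 0 := by
  have h := (Complex.isPrimitiveRoot_exp q (by omega)).geom_sum_eq_zero (by omega)
  have e : ∀ i : ℕ, Complex.exp (2 * Real.pi * Complex.I / q) ^ i =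
      (Real.cos (i * (2 * Real.pi / q)) : ℂ) + (Real.sin (i * (2 * Real.pi / q)) : ℂ) *
        Complex.I := by
    intro i
    rw [← Complex.exp_nat_mul]
    have : (i : ℂ) * (2 * Real.pi * Complex.I / q) = ((i * (2 * Real.pi / q) : ℝ) : ℂ) *
        Complex.I := by push_cast; ring
    rw [this, Complex.exp_mul_I, ← Complex.ofReal_cos, ← Complex.ofReal_sin]
  simp only [e] at h
  exact re_im_sum _ _ _ h

theorem trig2 {q : ℕ} (hq : 3 ≤ q) :
    ∑ i ∈ Finset.range q, Real.cos (2 * (i * (2 * Real.pi / q))) = 0 ∧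
    ∑ i ∈ Finset.range q, Real.sin (2 * (i * (2 * Real.pi / q))) = 0 := by
  have hp := Complex.isPrimitiveRoot_exp q (by omega)
  set ζ := Complex.exp (2 * Real.pi * Complex.I / q) with hζ
  have h2 : ζ ^ 2 ≠ 1 := hp.pow_ne_one_of_pos_of_lt (by norm_num) (by omega)
  have h : ∑ i ∈ Finset.range q, (ζ ^ 2) ^ i = 0 := by
    have h1 := geom_sum_mul (ζ ^ 2) q
    have h3 : (ζ ^ 2) ^ q = 1 := by rw [← pow_mul, mul_comm, pow_mul, hp.pow_eq_one, one_pow]
    rw [h3, sub_self] at h1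
    exact (mul_eq_zero.1 h1).resolve_right (sub_ne_zero.2 h2)
  have e : ∀ i : ℕ, (ζ ^ 2) ^ i =
      (Real.cos (2 * (i * (2 * Real.pi / q))) : ℂ) +
        (Real.sin (2 * (i * (2 * Real.pi / q))) : ℂ) * Complex.I := by
    intro i
    rw [← pow_mul, hζ, ← Complex.exp_nat_mul]
    have : ((2 * i : ℕ) : ℂ) * (2 * Real.pi * Complex.I / q) =
        ((2 * (i * (2 * Real.pi / q)) : ℝ) : ℂ) * Complex.I := by push_cast; ring
    rw [this, Complex.exp_mul_I, ← Complex.ofReal_cos, ← Complex.ofReal_sin]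
  simp only [e] at h
  exact re_im_sum _ _ _ h

/-- The sums of a linear function over an orbit. -/
theorem orb1 {q : ℕ} (hq : 2 ≤ q) (A B : ℝ) :
    ∑ i ∈ Finset.range q, (Real.cos (i * (2 * Real.pi / q)) * A +
      Real.sin (i * (2 * Real.pi / q)) * B) = 0 := by
  rw [Finset.sum_add_distrib, ← Finset.sum_mul, ← Finset.sum_mul, (trig1 hq).1, (trig1 hq).2]
  ring

theorem orb2 {q : ℕ} (hq : 3 ≤ q) (A B : ℝ) :
    ∑ i ∈ Finset.range q, (Real.cos (i * (2 * Real.pi / q)) * A +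
      Real.sin (i * (2 * Real.pi / q)) * B) ^ 2 = q * ((A ^ 2 + B ^ 2) / 2) := by
  have e : ∀ i : ℕ, (Real.cos (i * (2 * Real.pi / q)) * A +
      Real.sin (i * (2 * Real.pi / q)) * B) ^ 2 = (A ^ 2 + B ^ 2) / 2 +
      (Real.cos (2 * (i * (2 * Real.pi / q))) * ((A ^ 2 - B ^ 2) / 2) +
        Real.sin (2 * (i * (2 * Real.pi / q))) * (A * B)) := by
    intro i
    rw [Real.cos_two_mul, Real.sin_two_mul]
    have := Real.sin_sq_add_cos_sq (i * (2 * Real.pi / q))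
    have h2 : Real.sin (i * (2 * Real.pi / q)) ^ 2 =
        1 - Real.cos (i * (2 * Real.pi / q)) ^ 2 := by linarith
    ring_nf
    ring_nf at h2
    rw [h2]
    ring
  simp only [e]
  rw [Finset.sum_add_distrib, Finset.sum_add_distrib, ← Finset.sum_mul, ← Finset.sum_mul,
    (trig2 hq).1, (trig2 hq).2, Finset.sum_const, Finset.card_range, nsmul_eq_mul]
  ring

end Run7.h444.LTR
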