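import Pool.Agent.Run7.h444.LTR.G
import Pool.Agent.Run7.h444.LTR.H

/-! The cut functions. -/

set_option autoImplicit false

open MeasureTheory Set Filter Topology

namespace Run7.h444.LTR

open LTd Pool.Agent.R282.KO Pool.Agent.N96.LF

variable {n : ℕ}

/-- The reciprocal of the regularized distance to the axis. -/
noncomputable def S (ε : ℝ) (x : Fin (n + 2) → ℝ) : ℝ := (√(nn x + ε ^ 2))⁻¹

/-- The four directions. -/
def cx : Fin 4 → ℝ := ![1, -1, 0, 0]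

/-- The four directions. -/
def cy : Fin 4 → ℝ := ![0, 0, 1, -1]

/-- The regularized cosines of the angles with the four directions. -/
noncomputable def qq (ε : ℝ) (j : Fin 4) (x : Fin (n + 2) → ℝ) : ℝ :=
  (cx j * x 0 + cy j * x 1) * S ε x

theorem cxy (j : Fin 4) : cx j ^ 2 + cy j ^ 2 = 1 := by
  fin_cases j <;> simp [cx, cy]

variable {ε : ℝ}

theorem den_pos (hε : 0 < ε) (x : Fin (n + 2) → ℝ) : 0 < nn x + ε ^ 2 := by
  have := nn_nonneg x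
  positivity

theorem S_pos (hε : 0 < ε) (x : Fin (n + 2) → ℝ) : 0 < S ε x :=
  inv_pos.2 (Real.sqrt_pos.2 (den_pos hε x))

theorem S_sq (hε : 0 < ε) (x : Fin (n + 2) → ℝ) : S ε x ^ 2 * (nn x + ε ^ 2) = 1 := by
  have h := den_pos hε x
  unfold S
  rw [inv_pow, Real.sq_sqrt h.le, inv_mul_cancel₀ h.ne']

theorem tau_eq (hε : 0 < ε) (x : Fin (n + 2) → ℝ) :
    nn x / (nn x + ε ^ 2) = nn x * S ε x ^ 2 := by
  have h := den_pos hε x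
  rw [div_eq_iff h.ne', mul_assoc, S_sq hε x, mul_one]

theorem S_rot (θ : ℝ) (x : Fin (n + 2) → ℝ) : S ε (rot θ x) = S ε x := by
  unfold S; rw [nn_rot]

theorem nn_smooth : ContDiff ℝ (⊤ : ℕ∞) (nn (n := n)) :=
  ((contDiff_apply ℝ ℝ (0 : Fin (n + 2))).pow 2).add ((contDiff_apply ℝ ℝ (1 : Fin (n + 2))).pow 2)

theorem S_smooth (hε : 0 < ε) : ContDiff ℝ (⊤ : ℕ∞) (S (n := n) ε) := by
  unfold S
  refine ContDiff.inv (ContDiff.sqrt (nn_smooth.add contDiff_const) fun x => (den_pos hε x).ne')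
    fun x => (Real.sqrt_pos.2 (den_pos hε x)).ne'

theorem qq_smooth (hε : 0 < ε) (j : Fin 4) : ContDiff ℝ (⊤ : ℕ∞) (qq (n := n) ε j) := by
  unfold qq
  exact ((contDiff_const.mul (contDiff_apply ℝ ℝ (0 : Fin (n + 2)))).add
    (contDiff_const.mul (contDiff_apply ℝ ℝ (1 : Fin (n + 2))))).mul (S_smooth hε)

theorem GD_S (hε : 0 < ε) (x : Fin (n + 2) → ℝ) :
    GD (S ε) (-(S ε x ^ 3 * x 0)) (-(S ε x ^ 3 * x 1)) x := by
  have h := den_pos hε x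
  have hs := Real.sqrt_pos.2 h
  have h1 : GD (fun y : Fin (n + 2) → ℝ => (y 0 * y 0 + y 1 * y 1) + ε ^ 2)
      (2 * x 0) (2 * x 1) x := by
    refine (((((GD_x0 x).mul (GD_x0 x)).add ((GD_x1 x).mul (GD_x1 x))).add
      (GD_const (ε ^ 2) x))).of_eq ?_ ?_ <;> ring
  have e : (fun y : Fin (n + 2) → ℝ => (y 0 * y 0 + y 1 * y 1) + ε ^ 2) =
      fun y => nn y + ε ^ 2 := by
    funext y; unfold nn; ring
  rw [e] at h1
  have h2 : HasDerivAt (fun s : ℝ => (√s)⁻¹) (-(1 / (2 * √(nn x + ε ^ 2))) /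
      (√(nn x + ε ^ 2)) ^ 2) (nn x + ε ^ 2) :=
    (Real.hasDerivAt_sqrt h.ne').fun_inv hs.ne'
  have h3 := h1.chain h2
  refine h3.of_eq ?_ ?_
  · unfold S; field_simp
  · unfold S; field_simp

theorem GD_qq (hε : 0 < ε) (j : Fin 4) (x : Fin (n + 2) → ℝ) :
    GD (qq ε j) (S ε x * (cx j - qq ε j x * (x 0 * S ε x)))
      (S ε x * (cy j - qq ε j x * (x 1 * S ε x))) x := by
  have h1 := ((((GD_const (cx j) x).mul (GD_x0 x)).add ((GD_const (cy j) x).mul (GD_x1 x))).mul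
    (GD_S hε x))
  refine h1.of_eq ?_ ?_
  · unfold qq; ring
  · unfold qq; ring

/-- `q² ≤ τ` -/
theorem qq_sq (j : Fin 4) (x : Fin (n + 2) → ℝ) : qq ε j x ^ 2 ≤ nn x * S ε x ^ 2 := by
  unfold qq nn
  have h := cxy j
  have : (cx j * x 0 + cy j * x 1) ^ 2 ≤ x 0 ^ 2 + x 1 ^ 2 := by
    have h2 : (cx j ^ 2 + cy j ^ 2) * (x 0 ^ 2 + x 1 ^ 2) = x 0 ^ 2 + x 1 ^ 2 := by
      rw [h, one_mul]
    nlinarith [sq_nonneg (cx j * x 1 - cy j * x 0)]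
  rw [mul_pow]
  exact mul_le_mul_of_nonneg_right this (sq_nonneg _)

theorem tau_lt (hε : 0 < ε) (x : Fin (n + 2) → ℝ) : nn x * S ε x ^ 2 < 1 := by
  have h := S_sq hε x
  have h2 : 0 < S ε x ^ 2 * ε ^ 2 := by have := S_pos hε x; positivity
  nlinarith

theorem tau_nonneg (x : Fin (n + 2) → ℝ) : 0 ≤ nn x * S ε x ^ 2 :=
  mul_nonneg (nn_nonneg x) (sq_nonneg _)

theorem qq_gt (hε : 0 < ε) (j : Fin 4) (x : Fin (n + 2) → ℝ) : 0 < 1 + qq ε j x := by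
  have h1 := qq_sq (ε := ε) j x
  have h2 := tau_lt hε x
  nlinarith

theorem qq_sum (x : Fin (n + 2) → ℝ) : ∑ j, qq ε j x = 0 := by
  unfold qq
  rw [Fin.sum_univ_four]
  simp [cx, cy]

theorem qq_sum2 (x : Fin (n + 2) → ℝ) : ∑ j, qq ε j x ^ 2 = 2 * (nn x * S ε x ^ 2) := by
  unfold qq nn
  rw [Fin.sum_univ_four]
  simp [cx, cy]
  ring

theorem qq_sum3 (x : Fin (n + 2) → ℝ) : ∑ j, qq ε j x ^ 3 = 0 := by
  unfold qq
  rw [Fin.sum_univ_four]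
  simp [cx, cy]
  ring

/-- `|∇q|² = S² (1 - 2 q² + q² τ)` -/
theorem grad_qq (j : Fin 4) (x : Fin (n + 2) → ℝ) :
    (S ε x * (cx j - qq ε j x * (x 0 * S ε x))) ^ 2 +
      (S ε x * (cy j - qq ε j x * (x 1 * S ε x))) ^ 2 =
    S ε x ^ 2 * (1 - 2 * qq ε j x ^ 2 + qq ε j x ^ 2 * (nn x * S ε x ^ 2)) := by
  have h := cxy j
  have e : qq ε j x = cx j * (x 0 * S ε x) + cy j * (x 1 * S ε x) := by unfold qq; ring
  have e2 : nn x * S ε x ^ 2 = (x 0 * S ε x) ^ 2 + (x 1 * S ε x) ^ 2 := by unfold nn; ring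
  rw [e2]
  set a := x 0 * S ε x
  set b := x 1 * S ε x
  set s := S ε x
  have h3 : (s * (cx j - qq ε j x * a)) ^ 2 + (s * (cy j - qq ε j x * b)) ^ 2 =
      s ^ 2 * ((cx j ^ 2 + cy j ^ 2) - 2 * qq ε j x * (cx j * a + cy j * b) +
        qq ε j x ^ 2 * (a ^ 2 + b ^ 2)) := by ring
  rw [h3, h, ← e]
  ring

/-- The functions `q` along an orbit. -/
theorem qq_rot (j : Fin 4) (θ : ℝ) (x : Fin (n + 2) → ℝ) :
    qq ε j (rot θ x) = Real.cos θ * ((cx j * x 0 + cy j * x 1) * S ε x) +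
      Real.sin θ * ((cy j * x 0 - cx j * x 1) * S ε x) := by
  unfold qq
  rw [S_rot, rot0, rot1]
  ring

theorem qq_avg1 {q : ℕ} (hq : 2 ≤ q) (j : Fin 4) (x : Fin (n + 2) → ℝ) :
    ∑ i ∈ Finset.range q, qq ε j (rot (i * (2 * Real.pi / q)) x) = 0 := by
  simp only [qq_rot]
  exact orb1 hq _ _

theorem qq_avg2 {q : ℕ} (hq : 3 ≤ q) (j : Fin 4) (x : Fin (n + 2) → ℝ) :
    ∑ i ∈ Finset.range q, qq ε j (rot (i * (2 * Real.pi / q)) x) ^ 2 =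
      q * (nn x * S ε x ^ 2 / 2) := by
  simp only [qq_rot]
  rw [orb2 hq]
  have h := cxy j
  have e : ((cx j * x 0 + cy j * x 1) * S ε x) ^ 2 + ((cy j * x 0 - cx j * x 1) * S ε x) ^ 2 =
      (cx j ^ 2 + cy j ^ 2) * (nn x * S ε x ^ 2) := by unfold nn; ring
  rw [e, h, one_mul]

/-- The cut functions of the first kind. -/
noncomputable def χ1 (ε : ℝ) (j : Fin 4) (x : Fin (n + 2) → ℝ) : ℝ := √(1 + qq ε j x)

/-- The cut functions of the second kind. -/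
noncomputable def χ2 (ε : ℝ) (j : Fin 4) (x : Fin (n + 2) → ℝ) : ℝ :=
  √(2 / 3 * ((1 + qq ε j x) ^ 2 + ε ^ 2 / 2 * S ε x ^ 2))

theorem P2_pos (hε : 0 < ε) (j : Fin 4) (x : Fin (n + 2) → ℝ) :
    0 < 2 / 3 * ((1 + qq ε j x) ^ 2 + ε ^ 2 / 2 * S ε x ^ 2) := by
  have h1 := qq_gt hε j x
  positivity

theorem χ1_sq (hε : 0 < ε) (j : Fin 4) (x : Fin (n + 2) → ℝ) : χ1 ε j x ^ 2 = 1 + qq ε j x :=
  Real.sq_sqrt (qq_gt hε j x).le

theorem χ2_sq (hε : 0 < ε) (j : Fin 4) (x : Fin (n + 2) → ℝ) : χ2 ε j x ^ 2 =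
    2 / 3 * ((1 + qq ε j x) ^ 2 + ε ^ 2 / 2 * S ε x ^ 2) :=
  Real.sq_sqrt (P2_pos hε j x).le

theorem χ1_smooth (hε : 0 < ε) (j : Fin 4) : ContDiff ℝ (⊤ : ℕ∞) (χ1 (n := n) ε j) :=
  ContDiff.sqrt (contDiff_const.add (qq_smooth hε j)) fun x => (qq_gt hε j x).ne'

theorem χ2_smooth (hε : 0 < ε) (j : Fin 4) : ContDiff ℝ (⊤ : ℕ∞) (χ2 (n := n) ε j) :=
  ContDiff.sqrt (contDiff_const.mul (((contDiff_const.add (qq_smooth hε j)).pow 2).add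
    (contDiff_const.mul ((S_smooth hε).pow 2)))) fun x => (P2_pos hε j x).ne'

theorem eps_S (hε : 0 < ε) (x : Fin (n + 2) → ℝ) :
    ε ^ 2 * S ε x ^ 2 = 1 - nn x * S ε x ^ 2 := by
  have := S_sq hε x
  linarith

theorem χ1_grad (hε : 0 < ε) (x : Fin (n + 2) → ℝ) :
    ∑ k, ∑ j, pd k (χ1 ε j) x ^ 2 ≤ 1 * S ε x ^ 2 := by
  have h : ∀ j : Fin 4, GD (χ1 (n := n) ε j)
      (1 / (2 * √(1 + qq ε j x)) * (0 + S ε x * (cx j - qq ε j x * (x 0 * S ε x))))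
      (1 / (2 * √(1 + qq ε j x)) * (0 + S ε x * (cy j - qq ε j x * (x 1 * S ε x)))) x := fun j =>
    ((GD_const 1 x).add (GD_qq hε j x)).chain (Real.hasDerivAt_sqrt (qq_gt hε j x).ne')
  rw [GD.sum_sq h]
  have hj : ∀ j : Fin 4,
      (1 / (2 * √(1 + qq ε j x)) * (0 + S ε x * (cx j - qq ε j x * (x 0 * S ε x)))) ^ 2 +
      (1 / (2 * √(1 + qq ε j x)) * (0 + S ε x * (cy j - qq ε j x * (x 1 * S ε x)))) ^ 2 ≤
      S ε x ^ 2 * (1 - qq ε j x) / 4 := by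
    intro j
    have hp := qq_gt hε j x
    have h1 : (1 / (2 * √(1 + qq ε j x))) ^ 2 = 1 / (4 * (1 + qq ε j x)) := by
      rw [div_pow, mul_pow, Real.sq_sqrt hp.le]; norm_num
    rw [zero_add, zero_add, mul_pow, mul_pow (1 / (2 * √(1 + qq ε j x))), h1, ← mul_add,
      grad_qq, div_mul_eq_mul_div, one_mul, div_le_div_iff₀ (by positivity) (by norm_num)]
    have ht := (tau_lt hε x).le
    have hS := sq_nonneg (S ε x)
    have h2 : 1 - 2 * qq ε j x ^ 2 + qq ε j x ^ 2 * (nn x * S ε x ^ 2) ≤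
        (1 - qq ε j x) * (1 + qq ε j x) := by
      nlinarith [mul_le_mul_of_nonneg_left ht (sq_nonneg (qq ε j x))]
    nlinarith [mul_le_mul_of_nonneg_left h2 hS]
  refine (Finset.sum_le_sum fun j _ => hj j).trans (le_of_eq ?_)
  have e : ∀ j, S ε x ^ 2 * (1 - qq ε j x) / 4 = S ε x ^ 2 / 4 - S ε x ^ 2 / 4 * qq ε j x :=
    fun j => by ring
  simp only [e]
  rw [Finset.sum_sub_distrib, ← Finset.mul_sum, qq_sum]
  simp
  ring

theorem χ2_grad (hε : 0 < ε) (x : Fin (n + 2) → ℝ) :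
    ∑ k, ∑ j, pd k (χ2 ε j) x ^ 2 ≤ 4 / 3 * (S ε x ^ 2 * (2 - nn x * S ε x ^ 2)) := by
  have hS2 := GD_S (n := n) hε x
  have hP : ∀ j : Fin 4, GD (fun y : Fin (n + 2) → ℝ =>
      2 / 3 * ((1 + qq ε j y) * (1 + qq ε j y) + ε ^ 2 / 2 * (S ε y * S ε y)))
      (2 / 3 * S ε x * (2 * (1 + qq ε j x) * (cx j - qq ε j x * (x 0 * S ε x)) -
        (1 - nn x * S ε x ^ 2) * (x 0 * S ε x)))
      (2 / 3 * S ε x * (2 * (1 + qq ε j x) * (cy j - qq ε j x * (x 1 * S ε x)) -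
        (1 - nn x * S ε x ^ 2) * (x 1 * S ε x))) x := by
    intro j
    have h1 := (GD_const 1 x).add (GD_qq hε j x)
    have h2 := (GD_const (2 / 3) x).mul ((h1.mul h1).add
      ((GD_const (ε ^ 2 / 2) x).mul (hS2.mul hS2)))
    rw [← eps_S hε x]
    refine h2.of_eq ?_ ?_
    · ring
    · ring
  have e0 : ∀ j : Fin 4, (fun y : Fin (n + 2) → ℝ =>
      √(2 / 3 * ((1 + qq ε j y) * (1 + qq ε j y) + ε ^ 2 / 2 * (S ε y * S ε y)))) = χ2 ε j := by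
    intro j; funext y; unfold χ2; congr 1; ring
  have e0' : ∀ j : Fin 4,
      2 / 3 * ((1 + qq ε j x) * (1 + qq ε j x) + ε ^ 2 / 2 * (S ε x * S ε x)) =
      2 / 3 * ((1 + qq ε j x) ^ 2 + ε ^ 2 / 2 * S ε x ^ 2) := fun j => by ring
  have h : ∀ j : Fin 4, GD (χ2 (n := n) ε j)
      (1 / (2 * √(2 / 3 * ((1 + qq ε j x) ^ 2 + ε ^ 2 / 2 * S ε x ^ 2))) *
        (2 / 3 * S ε x * (2 * (1 + qq ε j x) * (cx j - qq ε j x * (x 0 * S ε x)) -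
        (1 - nn x * S ε x ^ 2) * (x 0 * S ε x))))
      (1 / (2 * √(2 / 3 * ((1 + qq ε j x) ^ 2 + ε ^ 2 / 2 * S ε x ^ 2))) *
        (2 / 3 * S ε x * (2 * (1 + qq ε j x) * (cy j - qq ε j x * (x 1 * S ε x)) -
        (1 - nn x * S ε x ^ 2) * (x 1 * S ε x)))) x := by
    intro j
    have hd := Real.hasDerivAt_sqrt (P2_pos hε j x).ne'
    have h3 := (hP j).chain (φ := fun s => √s) (φ' := 1 / (2 * √(2 / 3 * ((1 + qq ε j x) ^ 2 +
      ε ^ 2 / 2 * S ε x ^ 2)))) (by simp only [e0' j]; exact hd)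
    rwa [e0] at h3
  rw [GD.sum_sq h]
  set τ := nn x * S ε x ^ 2 with hτ
  have hτ1 := (tau_lt hε x).le
  have e2 : τ = (x 0 * S ε x) ^ 2 + (x 1 * S ε x) ^ 2 := by rw [hτ]; unfold nn; ring
  have hj : ∀ j : Fin 4, (1 / (2 * √(2 / 3 * ((1 + qq ε j x) ^ 2 + ε ^ 2 / 2 * S ε x ^ 2))) *
        (2 / 3 * S ε x * (2 * (1 + qq ε j x) * (cx j - qq ε j x * (x 0 * S ε x)) -
        (1 - τ) * (x 0 * S ε x)))) ^ 2 +
      (1 / (2 * √(2 / 3 * ((1 + qq ε j x) ^ 2 + ε ^ 2 / 2 * S ε x ^ 2))) *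
        (2 / 3 * S ε x * (2 * (1 + qq ε j x) * (cy j - qq ε j x * (x 1 * S ε x)) -
        (1 - τ) * (x 1 * S ε x)))) ^ 2 ≤
      2 / 3 * (S ε x ^ 2 * (1 - 2 * qq ε j x ^ 2 + qq ε j x ^ 2 * τ)) +
        2 / 3 * (S ε x ^ 2 * ((1 - τ) / 2 * τ)) := by
    intro j
    have hp := P2_pos hε j x
    set P := 2 / 3 * ((1 + qq ε j x) ^ 2 + ε ^ 2 / 2 * S ε x ^ 2) with hPdef
    have hP2 : P = 2 / 3 * ((1 + qq ε j x) ^ 2 + (1 - τ) / 2) := by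
      rw [hPdef, hτ, ← eps_S hε x]; ring
    have h1 : (1 / (2 * √P)) ^ 2 = 1 / (4 * P) := by
      rw [div_pow, mul_pow, Real.sq_sqrt hp.le]; norm_num
    have hu : 0 ≤ (1 - τ) / 2 := by linarith
    have CS : ∀ c a : ℝ, (1 / (2 * √P) * (2 / 3 * S ε x * (2 * (1 + qq ε j x) *
        (c - qq ε j x * a) - (1 - τ) * a))) ^ 2 ≤
        2 / 3 * ((S ε x * (c - qq ε j x * a)) ^ 2) +
          2 / 3 * (S ε x ^ 2 * ((1 - τ) / 2 * a ^ 2)) := by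
      intro c a
      rw [mul_pow, h1, div_mul_eq_mul_div, one_mul, div_le_iff₀ (by positivity), hP2]
      have h5 : (2 / 3 * ((S ε x * (c - qq ε j x * a)) ^ 2) +
          2 / 3 * (S ε x ^ 2 * ((1 - τ) / 2 * a ^ 2))) *
          (4 * (2 / 3 * ((1 + qq ε j x) ^ 2 + (1 - τ) / 2))) -
          (2 / 3 * S ε x * (2 * (1 + qq ε j x) * (c - qq ε j x * a) - (1 - τ) * a)) ^ 2 =
          16 / 9 * S ε x ^ 2 * ((1 - τ) / 2) *
            ((1 + qq ε j x) * a + (c - qq ε j x * a)) ^ 2 := by ring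
      have h6 : 0 ≤ 16 / 9 * S ε x ^ 2 * ((1 - τ) / 2) *
            ((1 + qq ε j x) * a + (c - qq ε j x * a)) ^ 2 := by positivity
      linarith
    have h7 := add_le_add (CS (cx j) (x 0 * S ε x)) (CS (cy j) (x 1 * S ε x))
    refine h7.trans (le_of_eq ?_)
    have h8 := grad_qq (ε := ε) j x
    rw [← hτ] at h8
    rw [← h8]
    have h9 : 2 / 3 * (S ε x ^ 2 * ((1 - τ) / 2 * τ)) =
        2 / 3 * (S ε x ^ 2 * ((1 - τ) / 2 * ((x 0 * S ε x) ^ 2 + (x 1 * S ε x) ^ 2))) := by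
      rw [← e2]
    rw [h9]
    ring
  refine (Finset.sum_le_sum fun j _ => hj j).trans (le_of_eq ?_)
  have e : ∀ j, 2 / 3 * (S ε x ^ 2 * (1 - 2 * qq ε j x ^ 2 + qq ε j x ^ 2 * τ)) +
        2 / 3 * (S ε x ^ 2 * ((1 - τ) / 2 * τ)) = 2 / 3 * S ε x ^ 2 * (1 + (1 - τ) / 2 * τ) -
        2 / 3 * S ε x ^ 2 * (2 - τ) * qq ε j x ^ 2 := fun j => by ring
  simp only [e]
  have e3 : ∑ j, 2 / 3 * S ε x ^ 2 * (2 - τ) * qq ε j x ^ 2 =
      2 / 3 * S ε x ^ 2 * (2 - τ) * ∑ j, qq ε j x ^ 2 := by rw [Finset.mul_sum]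
  rw [Finset.sum_sub_distrib, e3, qq_sum2, ← hτ]
  simp
  ring

end Run7.h444.LTR
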