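import Pool.Agent.Run7.h444.LTR.I

/-! The families of cut functions; the limit. -/

set_option autoImplicit false

open MeasureTheory Set Filter Topology

namespace Run7.h444.LTR

open LTd Pool.Agent.R282.KO Pool.Agent.N96.LF

variable {n : ℕ} {ε : ℝ}

theorem bdd_of {m : ℕ} {M C B : ℝ} {χ : Fin m → (Fin (n + 2) → ℝ) → ℝ}
    {w : (Fin (n + 2) → ℝ) → ℝ} (hs : ∀ j, ContDiff ℝ (⊤ : ℕ∞) (χ j))
    (hsum : ∀ x, ∑ j, χ j x ^ 2 = M) (hC : 0 ≤ C)
    (hgrad : ∀ x, ∑ k, ∑ j, pd k (χ j) x ^ 2 ≤ C * w x) (hB : ∀ x, w x ≤ B) (j : Fin m) :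
    Bdd (χ j) := by
  refine ⟨hs j, ⟨√M, fun x => ?_⟩, fun k => ⟨√(C * B), fun x => ?_⟩⟩
  · refine Real.abs_le_sqrt ?_
    rw [← hsum x]
    exact Finset.single_le_sum (f := fun j => χ j x ^ 2) (fun i _ => sq_nonneg _)
      (Finset.mem_univ j)
  · refine Real.abs_le_sqrt ?_
    calc pd k (χ j) x ^ 2 ≤ ∑ j, pd k (χ j) x ^ 2 :=
          Finset.single_le_sum (f := fun j => pd k (χ j) x ^ 2) (fun i _ => sq_nonneg _)
            (Finset.mem_univ j)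
      _ ≤ ∑ k, ∑ j, pd k (χ j) x ^ 2 :=
          Finset.single_le_sum (f := fun k => ∑ j, pd k (χ j) x ^ 2)
            (fun i _ => Finset.sum_nonneg fun _ _ => sq_nonneg _) (Finset.mem_univ k)
      _ ≤ C * w x := hgrad x
      _ ≤ C * B := mul_le_mul_of_nonneg_left (hB x) hC

theorem S_bd (hε : 0 < ε) (x : Fin (n + 2) → ℝ) : S ε x ^ 2 ≤ 1 / ε ^ 2 := by
  rw [le_div_iff₀ (by positivity)]
  have h := S_sq hε x
  nlinarith [tau_nonneg (ε := ε) x]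

theorem cuts1 {q : ℕ} (hq : 2 ≤ q) (hε : 0 < ε) :
    Cuts (n := n) q 4 1 (χ1 ε) (fun x => S ε x ^ 2) := by
  have hsum : ∀ x : Fin (n + 2) → ℝ, ∑ j, χ1 ε j x ^ 2 = 4 := by
    intro x
    simp only [χ1_sq hε]
    rw [Finset.sum_add_distrib, qq_sum]
    simp
  refine ⟨bdd_of (χ1_smooth hε) hsum zero_le_one (χ1_grad hε) (S_bd hε), hsum, fun j x => ?_,
    χ1_grad hε, (S_smooth hε).continuous.pow 2, fun x => sq_nonneg _, fun θ x => ?_, fun x => ?_,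
    ⟨_, S_bd hε⟩⟩
  · simp only [χ1_sq hε]
    rw [Finset.sum_add_distrib, qq_avg1 hq]
    simp
  · simp only [S_rot]
  · have := (tau_lt hε x).le
    linarith

theorem cuts2 {q : ℕ} (hq : 3 ≤ q) (hε : 0 < ε) :
    Cuts (n := n) q 4 (4 / 3) (χ2 ε) (fun x => S ε x ^ 2 * (2 - nn x * S ε x ^ 2)) := by
  have hsum : ∀ x : Fin (n + 2) → ℝ, ∑ j, χ2 ε j x ^ 2 = 4 := by
    intro x
    simp only [χ2_sq hε]
    have e : ∀ j, 2 / 3 * ((1 + qq ε j x) ^ 2 + ε ^ 2 / 2 * S ε x ^ 2) =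
        2 / 3 + 1 / 3 * (ε ^ 2 * S ε x ^ 2) + 4 / 3 * qq ε j x + 2 / 3 * qq ε j x ^ 2 :=
      fun j => by ring
    simp only [e]
    rw [Finset.sum_add_distrib, Finset.sum_add_distrib, ← Finset.mul_sum, ← Finset.mul_sum,
      qq_sum, qq_sum2, eps_S hε]
    simp
    ring
  have hbd : ∀ x : Fin (n + 2) → ℝ, S ε x ^ 2 * (2 - nn x * S ε x ^ 2) ≤ 1 / ε ^ 2 * 2 := by
    intro x
    have h1 := tau_nonneg (ε := ε) x
    have h2 := tau_lt hε x
    exact mul_le_mul (S_bd hε x) (by linarith) (by linarith) (by positivity)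
  refine ⟨bdd_of (χ2_smooth hε) hsum (by norm_num) (χ2_grad hε) hbd, hsum, fun j x => ?_,
    χ2_grad hε, ?_, fun x => ?_, fun θ x => ?_, fun x => ?_, ⟨_, hbd⟩⟩
  · simp only [χ2_sq hε]
    have e : ∀ i : ℕ, 2 / 3 * ((1 + qq ε j (rot (i * (2 * Real.pi / q)) x)) ^ 2 +
        ε ^ 2 / 2 * S ε (rot (i * (2 * Real.pi / q)) x) ^ 2) =
        2 / 3 + 1 / 3 * (ε ^ 2 * S ε x ^ 2) +
        4 / 3 * qq ε j (rot (i * (2 * Real.pi / q)) x) +
        2 / 3 * qq ε j (rot (i * (2 * Real.pi / q)) x) ^ 2 := by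
      intro i
      rw [S_rot]
      ring
    simp only [e]
    rw [Finset.sum_add_distrib, Finset.sum_add_distrib, ← Finset.mul_sum, ← Finset.mul_sum,
      qq_avg1 (by omega), qq_avg2 hq, eps_S hε, Finset.sum_const, Finset.card_range, nsmul_eq_mul]
    ring
  · exact ((S_smooth hε).continuous.pow 2).mul (continuous_const.sub
      (nn_cont.mul ((S_smooth hε).continuous.pow 2)))
  · have h2 := tau_lt hε x
    exact mul_nonneg (sq_nonneg _) (by linarith)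
  · simp only [S_rot, nn_rot]
  · have h : S ε x ^ 2 * (2 - nn x * S ε x ^ 2) * nn x =
        1 - (1 - nn x * S ε x ^ 2) ^ 2 := by ring
    rw [h]
    nlinarith [sq_nonneg (1 - nn x * S ε x ^ 2)]

theorem Kcl_nonneg (d : ℕ) : 0 ≤ Kcl d := by
  unfold Kcl
  positivity

theorem nn_ae : ∀ᵐ x : Fin (n + 2) → ℝ, 0 < nn x := by
  filter_upwards [ae_ne (0 : Fin (n + 2))] with x hx
  unfold nn
  positivity

/-- The limit `ε → 0`. -/
theorem limit_thm {q : ℕ} {r : ℤ} (hq : 0 < q) (hr0 : r ≠ 0) (hr : 2 * |r| ≤ q) {N m : ℕ}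
    (u : Fin N → (Fin (n + 2) → ℝ) → ℂ) (g : Fin N → Fin (n + 2) → (Fin (n + 2) → ℝ) → ℂ)
    (hu : ∀ i, WGradC (u i) (g i)) (hsub : SubGram u)
    (heq : ∀ i, ∀ᵐ x, u i (rot (2 * Real.pi / q) x) =
      Complex.exp (2 * Real.pi * ((r / q : ℝ) : ℂ) * Complex.I) * u i x)
    {M C G0 G1 : ℝ} (hC : 0 ≤ C) (χ : ℝ → Fin m → (Fin (n + 2) → ℝ) → ℝ)
    (w : ℝ → (Fin (n + 2) → ℝ) → ℝ) (hχ : ∀ ε, 0 < ε → Cuts q M C (χ ε) (w ε))
    (hG : ∀ ε, 0 < ε → ∀ x, G0 + G1 * (nn x * S ε x ^ 2) ≤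
      ∑ j, (χ ε j x ^ 2) ^ (1 + 2 / ((n + 2 : ℕ) : ℝ))) :
    Integrable (fun x => rho u x ^ (1 + 2 / ((n + 2 : ℕ) : ℝ))) ∧
    (3 / 4 : ℝ) ^ (1 / ((n + 2 : ℕ) : ℝ)) * Kcl (n + 2) *
      ((G0 + G1) * ∫ x, rho u x ^ (1 + 2 / ((n + 2 : ℕ) : ℝ))) ≤
        (M + C / (r : ℝ) ^ 2) * kin g := by
  set p : ℝ := 1 + 2 / ((n + 2 : ℕ) : ℝ) with hp
  have hI : Integrable (fun x => rho u x ^ p) :=
    (sub_thm (n + 2) (by omega) N u g hu hsub).1
  refine ⟨hI, ?_⟩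
  set K : ℝ := (3 / 4 : ℝ) ^ (1 / ((n + 2 : ℕ) : ℝ)) * Kcl (n + 2) with hK
  have hK0 : 0 ≤ K := mul_nonneg (by positivity) (Kcl_nonneg _)
  have hrho : ∀ x, 0 ≤ rho u x ^ p := fun x => Real.rpow_nonneg (rho_nonneg u x) _
  have hcS : ∀ ε : ℝ, 0 < ε → Continuous fun x : Fin (n + 2) → ℝ =>
      G0 + G1 * (nn x * S ε x ^ 2) := fun ε hε =>
    continuous_const.add (continuous_const.mul (nn_cont.mul ((S_smooth hε).continuous.pow 2)))
  have hbd : ∀ ε : ℝ, 0 < ε → ∀ x : Fin (n + 2) → ℝ,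
      |G0 + G1 * (nn x * S ε x ^ 2)| ≤ |G0| + |G1| := by
    intro ε hε x
    refine (abs_add_le _ _).trans (add_le_add le_rfl ?_)
    rw [abs_mul, abs_of_nonneg (tau_nonneg (ε := ε) x)]
    exact mul_le_of_le_one_right (abs_nonneg _) (tau_lt hε x).le
  have hIe : ∀ ε : ℝ, 0 < ε → Integrable fun x => (G0 + G1 * (nn x * S ε x ^ 2)) * rho u x ^ p :=
    fun ε hε => hI.bdd_mul (hcS ε hε).aestronglyMeasurable (c := |G0| + |G1|)
      (Eventually.of_forall fun x => hbd ε hε x)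
  have step : ∀ ε : ℝ, 0 < ε → K * ∫ x, (G0 + G1 * (nn x * S ε x ^ 2)) * rho u x ^ p ≤
      (M + C / (r : ℝ) ^ 2) * kin g := by
    intro ε hε
    obtain ⟨h1, h2⟩ := main_cut hq hr0 hr u g hu hsub heq hC (hχ ε hε)
    refine le_trans (mul_le_mul_of_nonneg_left ?_ hK0) h2
    refine integral_mono (hIe ε hε) h1 fun x => ?_
    exact mul_le_mul_of_nonneg_right (hG ε hε x) (hrho x)
  have hlim : Tendsto (fun k : ℕ => ∫ x, (G0 + G1 * (nn x * S (1 / ((k : ℝ) + 1)) x ^ 2)) *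
      rho u x ^ p) atTop (𝓝 (∫ x, (G0 + G1) * rho u x ^ p)) := by
    refine tendsto_integral_of_dominated_convergence (fun x => (|G0| + |G1|) * rho u x ^ p)
      (fun k => (hIe _ (by positivity)).aestronglyMeasurable) (hI.const_mul _) (fun k => ?_) ?_
    · refine Eventually.of_forall fun x => ?_
      rw [norm_mul, Real.norm_eq_abs, Real.norm_eq_abs, abs_of_nonneg (hrho x)]
      exact mul_le_mul_of_nonneg_right (hbd _ (by positivity) x) (hrho x)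
    · filter_upwards [nn_ae] with x hx
      have h1 : Tendsto (fun k : ℕ => 1 / ((k : ℝ) + 1)) atTop (𝓝 0) :=
        tendsto_one_div_add_atTop_nhds_zero_nat
      have h2 : Tendsto (fun k : ℕ => nn x / (nn x + (1 / ((k : ℝ) + 1)) ^ 2)) atTop
          (𝓝 (nn x / (nn x + 0 ^ 2))) :=
        tendsto_const_nhds.div (tendsto_const_nhds.add (h1.pow 2)) (by
          have : nn x + 0 ^ 2 = nn x := by ring
          rw [this]; exact hx.ne')
      have h3 : nn x / (nn x + 0 ^ 2) = 1 := by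
        rw [zero_pow two_ne_zero, add_zero, div_self hx.ne']
      rw [h3] at h2
      have h4 : ∀ k : ℕ, nn x / (nn x + (1 / ((k : ℝ) + 1)) ^ 2) =
          nn x * S (1 / ((k : ℝ) + 1)) x ^ 2 := fun k => tau_eq (by positivity) x
      simp only [h4] at h2
      have h5 := ((h2.const_mul G1).const_add G0).mul_const (rho u x ^ p)
      rwa [mul_one] at h5
  rw [integral_const_mul] at hlim
  exact le_of_tendsto (hlim.const_mul K) (Eventually.of_forall fun k => step _ (by positivity))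

end Run7.h444.LTR
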