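import Pool.Agent.Run7.h444.LTR.J

/-! The constants. -/

set_option autoImplicit false

open MeasureTheory Set Filter Topology

namespace Run7.h444.LTR

open LTd Pool.Agent.R282.KO Pool.Agent.N96.LF

variable {n : ℕ}

theorem bern {a T t : ℝ} (ha : 1 ≤ a) (hT : 0 < T) (ht : 0 ≤ t) :
    T ^ a + a * T ^ (a - 1) * (t - T) ≤ t ^ a := by
  have h := one_add_mul_self_le_rpow_one_add (s := t / T - 1) (by
    have : 0 ≤ t / T := by positivity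
    linarith) ha
  have e1 : 1 + (t / T - 1) = t / T := by ring
  rw [e1, Real.div_rpow ht hT.le, le_div_iff₀ (by positivity)] at h
  refine le_trans (le_of_eq ?_) h
  rw [Real.rpow_sub_one hT.ne']
  field_simp

theorem gain1 {ε : ℝ} (hε : 0 < ε) (x : Fin (0 + 2) → ℝ) :
    4 + 2 * (nn x * S ε x ^ 2) ≤ ∑ j, (χ1 ε j x ^ 2) ^ (1 + 2 / ((0 + 2 : ℕ) : ℝ)) := by
  have hp : (1 + 2 / ((0 + 2 : ℕ) : ℝ)) = ((2 : ℕ) : ℝ) := by norm_num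
  rw [hp]
  simp only [χ1_sq hε, Real.rpow_natCast]
  have e : ∀ j, (1 + qq ε j x) ^ 2 = 1 + 2 * qq ε j x + qq ε j x ^ 2 := fun j => by ring
  simp only [e]
  rw [Finset.sum_add_distrib, Finset.sum_add_distrib, ← Finset.mul_sum, qq_sum, qq_sum2]
  simp

theorem chi2_ge {ε p : ℝ} (hε : 0 < ε) (hp : 0 ≤ p) (j : Fin 4) (x : Fin (n + 2) → ℝ) :
    (2 / 3 : ℝ) ^ p * (1 + qq ε j x) ^ (2 * p) ≤ (χ2 ε j x ^ 2) ^ p := by
  have hy := qq_gt hε j x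
  have h1 : (2 / 3 : ℝ) ^ p * (1 + qq ε j x) ^ (2 * p) = (2 / 3 * (1 + qq ε j x) ^ 2) ^ p := by
    rw [Real.mul_rpow (by norm_num) (by positivity), Real.rpow_mul hy.le]
    congr 2
    norm_num
  rw [h1, χ2_sq hε]
  refine Real.rpow_le_rpow (by positivity) ?_ hp
  have : 0 ≤ ε ^ 2 / 2 * S ε x ^ 2 := by positivity
  linarith

theorem sum_y2 {ε : ℝ} (x : Fin (n + 2) → ℝ) :
    ∑ j, (1 + qq ε j x) ^ 2 = 4 + 2 * (nn x * S ε x ^ 2) := by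
  have e : ∀ j, (1 + qq ε j x) ^ 2 = 1 + 2 * qq ε j x + qq ε j x ^ 2 := fun j => by ring
  simp only [e]
  rw [Finset.sum_add_distrib, Finset.sum_add_distrib, ← Finset.mul_sum, qq_sum, qq_sum2]
  simp

theorem sum_y1 {ε : ℝ} (x : Fin (n + 2) → ℝ) : ∑ j, (1 + qq ε j x) = 4 := by
  rw [Finset.sum_add_distrib, qq_sum]
  simp

theorem sum_y3 {ε : ℝ} (x : Fin (n + 2) → ℝ) :
    ∑ j, (1 + qq ε j x) ^ 3 = 4 + 6 * (nn x * S ε x ^ 2) := by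
  have e : ∀ j, (1 + qq ε j x) ^ 3 = 1 + 3 * qq ε j x + 3 * qq ε j x ^ 2 + qq ε j x ^ 3 :=
    fun j => by ring
  simp only [e]
  rw [Finset.sum_add_distrib, Finset.sum_add_distrib, Finset.sum_add_distrib, ← Finset.mul_sum,
    ← Finset.mul_sum, qq_sum, qq_sum2, qq_sum3]
  simp
  ring

/-- The gain for all dimensions. -/
theorem gain3 {ε : ℝ} (hε : 0 < ε) (x : Fin (n + 2) → ℝ) (a p T : ℝ)
    (ha : a = 1 + 4 / ((n + 2 : ℕ) : ℝ)) (hp : p = 1 + 2 / ((n + 2 : ℕ) : ℝ)) (hT : 0 < T) :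
    (2 / 3 : ℝ) ^ p * (4 * a * T ^ (a - 1) + 4 * (1 - a) * T ^ a) +
      (2 / 3 : ℝ) ^ p * (2 * a * T ^ (a - 1)) * (nn x * S ε x ^ 2) ≤
      ∑ j, (χ2 ε j x ^ 2) ^ p := by
  have hd : (0 : ℝ) < ((n + 2 : ℕ) : ℝ) := by positivity
  have ha1 : 1 ≤ a := by rw [ha]; have : 0 < 4 / ((n + 2 : ℕ) : ℝ) := by positivity
                         linarith
  have hp0 : 0 ≤ p := by rw [hp]; positivity
  have hj : ∀ j : Fin 4, (2 / 3 : ℝ) ^ p * (a * T ^ (a - 1) * (1 + qq ε j x) ^ 2 +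
      (1 - a) * T ^ a * (1 + qq ε j x)) ≤ (χ2 ε j x ^ 2) ^ p := by
    intro j
    have hy := qq_gt hε j x
    refine le_trans ?_ (chi2_ge hε hp0 j x)
    refine mul_le_mul_of_nonneg_left ?_ (by positivity)
    have h1 : (1 + qq ε j x) ^ (2 * p) = (1 + qq ε j x) * (1 + qq ε j x) ^ a := by
      rw [show (2 * p : ℝ) = 1 + a by rw [hp, ha]; ring, Real.rpow_add hy, Real.rpow_one]
    rw [h1]
    have h2 := mul_le_mul_of_nonneg_left (bern ha1 hT hy.le) hy.le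
    refine le_trans (le_of_eq ?_) h2
    have h3 : T ^ a = T ^ (a - 1) * T := by
      rw [Real.rpow_sub_one hT.ne']
      field_simp
    rw [h3]
    ring
  refine le_trans (le_of_eq ?_) (Finset.sum_le_sum fun j _ => hj j)
  rw [← Finset.mul_sum, Finset.sum_add_distrib, ← Finset.mul_sum, ← Finset.mul_sum, sum_y1, sum_y2]
  ring

/-- The gain for the dimensions at most four. -/
theorem gain2 {ε : ℝ} (hε : 0 < ε) (x : Fin (n + 2) → ℝ) (b p T : ℝ)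
    (hb : b = 4 / ((n + 2 : ℕ) : ℝ)) (hb1 : 1 ≤ b) (hp : p = 1 + 2 / ((n + 2 : ℕ) : ℝ))
    (hT : 0 < T) :
    (2 / 3 : ℝ) ^ p * (4 * b * T ^ (b - 1) + 4 * (1 - b) * T ^ b) +
      (2 / 3 : ℝ) ^ p * (6 * b * T ^ (b - 1) + 2 * (1 - b) * T ^ b) * (nn x * S ε x ^ 2) ≤
      ∑ j, (χ2 ε j x ^ 2) ^ p := by
  have hd : (0 : ℝ) < ((n + 2 : ℕ) : ℝ) := by positivity
  have hp0 : 0 ≤ p := by rw [hp]; positivity
  have hj : ∀ j : Fin 4, (2 / 3 : ℝ) ^ p * (b * T ^ (b - 1) * (1 + qq ε j x) ^ 3 +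
      (1 - b) * T ^ b * (1 + qq ε j x) ^ 2) ≤ (χ2 ε j x ^ 2) ^ p := by
    intro j
    have hy := qq_gt hε j x
    refine le_trans ?_ (chi2_ge hε hp0 j x)
    refine mul_le_mul_of_nonneg_left ?_ (by positivity)
    have h1 : (1 + qq ε j x) ^ (2 * p) = (1 + qq ε j x) ^ 2 * (1 + qq ε j x) ^ b := by
      rw [show (2 * p : ℝ) = ((2 : ℕ) : ℝ) + b by rw [hp, hb]; push_cast; ring,
        Real.rpow_add hy, Real.rpow_natCast]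
    rw [h1]
    have h2 := mul_le_mul_of_nonneg_left (bern hb1 hT hy.le) (sq_nonneg (1 + qq ε j x))
    refine le_trans (le_of_eq ?_) h2
    have h3 : T ^ b = T ^ (b - 1) * T := by
      rw [Real.rpow_sub_one hT.ne']
      field_simp
    rw [h3]
    ring
  refine le_trans (le_of_eq ?_) (Finset.sum_le_sum fun j _ => hj j)
  rw [← Finset.mul_sum, Finset.sum_add_distrib, ← Finset.mul_sum, ← Finset.mul_sum, sum_y3, sum_y2]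
  ring

variable {q : ℕ} {r : ℤ}

theorem q_ge (hr0 : r ≠ 0) (hr : 2 * |r| ≤ q) : 2 ≤ q := by
  have : 1 ≤ |r| := Int.one_le_abs hr0
  omega

/-- Two dimensions. -/
theorem final1 (hr0 : r ≠ 0) (hr : 2 * |r| ≤ q) {N : ℕ}
    (u : Fin N → (Fin (0 + 2) → ℝ) → ℂ) (g : Fin N → Fin (0 + 2) → (Fin (0 + 2) → ℝ) → ℂ)
    (hu : ∀ i, WGradC (u i) (g i)) (hsub : SubGram u)
    (heq : ∀ i, ∀ᵐ x, u i (rot (2 * Real.pi / q) x) =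
      Complex.exp (2 * Real.pi * ((r / q : ℝ) : ℂ) * Complex.I) * u i x) :
    3 * √3 * (r : ℝ) ^ 2 / (4 * (r : ℝ) ^ 2 + 1) * Kcl (0 + 2) *
      ∫ x, rho u x ^ (1 + 2 / ((0 + 2 : ℕ) : ℝ)) ≤ kin g := by
  have hq := q_ge hr0 hr
  have hr2 : (0 : ℝ) < (r : ℝ) ^ 2 := by
    have : (r : ℝ) ≠ 0 := by exact_mod_cast hr0
    positivity
  have h := (limit_thm (by omega) hr0 hr u g hu hsub heq zero_le_one χ1
    (fun ε x => S ε x ^ 2) (fun ε hε => cuts1 hq hε) (fun ε hε x => gain1 hε x)).2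
  have e1 : (3 / 4 : ℝ) ^ (1 / ((0 + 2 : ℕ) : ℝ)) = √3 / 2 := by
    rw [show (1 / ((0 + 2 : ℕ) : ℝ)) = 1 / 2 by norm_num, ← Real.sqrt_eq_rpow,
      Real.sqrt_div (by norm_num)]
    congr 1
    rw [show (4 : ℝ) = 2 ^ 2 by norm_num]
    exact Real.sqrt_sq (by norm_num)
  rw [e1] at h
  set I := ∫ x, rho u x ^ (1 + 2 / ((0 + 2 : ℕ) : ℝ))
  have h2 : (4 + 1 / (r : ℝ) ^ 2) * kin g = (4 * (r : ℝ) ^ 2 + 1) * kin g / (r : ℝ) ^ 2 := by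
    field_simp
  rw [h2, le_div_iff₀ hr2] at h
  rw [div_mul_eq_mul_div, div_mul_eq_mul_div, div_le_iff₀ (by positivity)]
  calc _ = √3 / 2 * Kcl (0 + 2) * ((4 + 2) * I) * (r : ℝ) ^ 2 := by ring
    _ ≤ _ := h
    _ = _ := by ring

/-- The constants for the second family. -/
theorem final_aux (hq : 3 ≤ q) (hr0 : r ≠ 0) (hr : 2 * |r| ≤ q) {N : ℕ}
    (u : Fin N → (Fin (n + 2) → ℝ) → ℂ) (g : Fin N → Fin (n + 2) → (Fin (n + 2) → ℝ) → ℂ)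
    (hu : ∀ i, WGradC (u i) (g i)) (hsub : SubGram u)
    (heq : ∀ i, ∀ᵐ x, u i (rot (2 * Real.pi / q) x) =
      Complex.exp (2 * Real.pi * ((r / q : ℝ) : ℂ) * Complex.I) * u i x)
    (G0 G1 T : ℝ) (hT : 0 < T)
    (hsum : G0 + G1 = 6 * (2 / 3 : ℝ) ^ (1 + 2 / ((n + 2 : ℕ) : ℝ)) *
      T ^ (4 / ((n + 2 : ℕ) : ℝ)))
    (hG : ∀ ε, 0 < ε → ∀ x : Fin (n + 2) → ℝ, G0 + G1 * (nn x * S ε x ^ 2) ≤
      ∑ j, (χ2 ε j x ^ 2) ^ (1 + 2 / ((n + 2 : ℕ) : ℝ))) :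
    (1 / 3 * T ^ 4) ^ (1 / ((n + 2 : ℕ) : ℝ)) * (3 * (r : ℝ) ^ 2 / (3 * (r : ℝ) ^ 2 + 1)) *
      Kcl (n + 2) * ∫ x, rho u x ^ (1 + 2 / ((n + 2 : ℕ) : ℝ)) ≤ kin g := by
  have hr2 : (0 : ℝ) < (r : ℝ) ^ 2 := by
    have : (r : ℝ) ≠ 0 := by exact_mod_cast hr0
    positivity
  have h := (limit_thm (by omega) hr0 hr u g hu hsub heq (by norm_num : (0 : ℝ) ≤ 4 / 3) χ2
    (fun ε x => S ε x ^ 2 * (2 - nn x * S ε x ^ 2)) (fun ε hε => cuts2 hq hε) hG).2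
  set d : ℝ := ((n + 2 : ℕ) : ℝ) with hd
  have hd0 : 0 < d := by rw [hd]; positivity
  have e1 : (3 / 4 : ℝ) ^ (1 / d) * (6 * (2 / 3 : ℝ) ^ (1 + 2 / d) * T ^ (4 / d)) =
      4 * (1 / 3 * T ^ 4) ^ (1 / d) := by
    have a1 : (2 / 3 : ℝ) ^ (1 + 2 / d) = 2 / 3 * ((2 / 3 : ℝ) ^ 2) ^ (1 / d) := by
      rw [Real.rpow_add (by norm_num), Real.rpow_one, ← Real.rpow_natCast (2 / 3 : ℝ) 2,
        ← Real.rpow_mul (by norm_num)]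
      congr 2
      push_cast
      ring
    have a2 : T ^ (4 / d) = (T ^ 4) ^ (1 / d) := by
      rw [← Real.rpow_natCast T 4, ← Real.rpow_mul hT.le]
      congr 1
      push_cast
      ring
    have a3 : (1 / 3 * T ^ 4 : ℝ) = 3 / 4 * (2 / 3) ^ 2 * T ^ 4 := by ring
    rw [a1, a2, a3, Real.mul_rpow (by norm_num) (by positivity),
      Real.mul_rpow (by norm_num) (by norm_num)]
    ring
  rw [hsum] at h
  set I := ∫ x, rho u x ^ (1 + 2 / d)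
  have h1 : (3 / 4 : ℝ) ^ (1 / d) * Kcl (n + 2) *
      (6 * (2 / 3 : ℝ) ^ (1 + 2 / d) * T ^ (4 / d) * I) =
      4 * (1 / 3 * T ^ 4) ^ (1 / d) * Kcl (n + 2) * I := by
    rw [← e1]; ring
  rw [h1] at h
  have h2 : (4 + 4 / 3 / (r : ℝ) ^ 2) * kin g =
      (4 * (3 * (r : ℝ) ^ 2 + 1)) * kin g / (3 * (r : ℝ) ^ 2) := by
    field_simp
  rw [h2, le_div_iff₀ (by positivity)] at h
  have h3 : (1 / 3 * T ^ 4) ^ (1 / d) * (3 * (r : ℝ) ^ 2 / (3 * (r : ℝ) ^ 2 + 1)) *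
      Kcl (n + 2) * I = (1 / 3 * T ^ 4) ^ (1 / d) * Kcl (n + 2) * I * (3 * (r : ℝ) ^ 2) /
      (3 * (r : ℝ) ^ 2 + 1) := by ring
  rw [h3, div_le_iff₀ (by positivity)]
  nlinarith [h]

theorem final3 (hq : 3 ≤ q) (hr0 : r ≠ 0) (hr : 2 * |r| ≤ q) {N : ℕ}
    (u : Fin N → (Fin (n + 2) → ℝ) → ℂ) (g : Fin N → Fin (n + 2) → (Fin (n + 2) → ℝ) → ℂ)
    (hu : ∀ i, WGradC (u i) (g i)) (hsub : SubGram u)
    (heq : ∀ i, ∀ᵐ x, u i (rot (2 * Real.pi / q) x) =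
      Complex.exp (2 * Real.pi * ((r / q : ℝ) : ℂ) * Complex.I) * u i x) :
    (27 / 16) ^ (1 / ((n + 2 : ℕ) : ℝ)) * (3 * (r : ℝ) ^ 2 / (3 * (r : ℝ) ^ 2 + 1)) *
      Kcl (n + 2) * ∫ x, rho u x ^ (1 + 2 / ((n + 2 : ℕ) : ℝ)) ≤ kin g := by
  have hT : (0 : ℝ) < 3 / 2 := by norm_num
  have h := final_aux hq hr0 hr u g hu hsub heq _ _ (3 / 2) hT ?_
    (fun ε hε x => gain3 hε x (1 + 4 / ((n + 2 : ℕ) : ℝ)) (1 + 2 / ((n + 2 : ℕ) : ℝ)) (3 / 2)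
      rfl rfl hT)
  · rwa [show (1 / 3 * (3 / 2 : ℝ) ^ 4) = 27 / 16 by norm_num] at h
  · have e1 : 1 + 4 / ((n + 2 : ℕ) : ℝ) - 1 = 4 / ((n + 2 : ℕ) : ℝ) := by ring
    have e2 : (3 / 2 : ℝ) ^ (1 + 4 / ((n + 2 : ℕ) : ℝ)) =
        3 / 2 * (3 / 2 : ℝ) ^ (4 / ((n + 2 : ℕ) : ℝ)) := by
      rw [Real.rpow_add hT, Real.rpow_one]
    rw [e1, e2]
    ring

theorem final2 (hn : n ≤ 2) (hq : 3 ≤ q) (hr0 : r ≠ 0) (hr : 2 * |r| ≤ q) {N : ℕ}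
    (u : Fin N → (Fin (n + 2) → ℝ) → ℂ) (g : Fin N → Fin (n + 2) → (Fin (n + 2) → ℝ) → ℂ)
    (hu : ∀ i, WGradC (u i) (g i)) (hsub : SubGram u)
    (heq : ∀ i, ∀ᵐ x, u i (rot (2 * Real.pi / q) x) =
      Complex.exp (2 * Real.pi * ((r / q : ℝ) : ℂ) * Complex.I) * u i x) :
    (625 / 243) ^ (1 / ((n + 2 : ℕ) : ℝ)) * (3 * (r : ℝ) ^ 2 / (3 * (r : ℝ) ^ 2 + 1)) *
      Kcl (n + 2) * ∫ x, rho u x ^ (1 + 2 / ((n + 2 : ℕ) : ℝ)) ≤ kin g := by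
  have hT : (0 : ℝ) < 5 / 3 := by norm_num
  have hb1 : 1 ≤ 4 / ((n + 2 : ℕ) : ℝ) := by
    rw [le_div_iff₀ (by positivity)]
    have : ((n + 2 : ℕ) : ℝ) ≤ ((4 : ℕ) : ℝ) := by exact_mod_cast (by omega : n + 2 ≤ 4)
    push_cast at this ⊢
    linarith
  have h := final_aux hq hr0 hr u g hu hsub heq _ _ (5 / 3) hT ?_
    (fun ε hε x => gain2 hε x (4 / ((n + 2 : ℕ) : ℝ)) (1 + 2 / ((n + 2 : ℕ) : ℝ)) (5 / 3)
      rfl hb1 rfl hT)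
  · rwa [show (1 / 3 * (5 / 3 : ℝ) ^ 4) = 625 / 243 by norm_num] at h
  · have e2 : (5 / 3 : ℝ) ^ (4 / ((n + 2 : ℕ) : ℝ)) =
        5 / 3 * (5 / 3 : ℝ) ^ (4 / ((n + 2 : ℕ) : ℝ) - 1) := by
      rw [Real.rpow_sub_one hT.ne']
      field_simp
    rw [e2]
    ring

end Run7.h444.LTR
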