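import Pool.Agent.Run7.h444.LTR.K
import Pool.Agent.R282.KO.Odd
import Pool.Agent.R282.KO.Sub

/-! The step for systems which are odd in one more coordinate, for a class of systems. -/

set_option autoImplicit false

open MeasureTheory Set Filter Topology Real

namespace Run7.h444.LTR

open LTd Pool.Agent.R282.KO

variable {d : ℕ}

/-- The kinetic inequality for a class of systems and its subclass of the systems which are odd in
the coordinate `k0`. -/
theorem classStep (C : ∀ N : ℕ, (Fin N → (Fin d → ℝ) → ℂ) → Prop) (k0 : Fin d)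
    (hC : ∀ (N : ℕ) (u : Fin N → (Fin d → ℝ) → ℂ) (σ : ℝ), C N u →
      C N (fun i x => ((mul σ k0 x : ℝ) : ℂ) * u i x)) (K : ℝ)
    (h : ∀ (N : ℕ) (u : Fin N → (Fin d → ℝ) → ℂ) (g : Fin N → Fin d → (Fin d → ℝ) → ℂ),
      (∀ i, WGradC (u i) (g i)) → SubGram u → C N u →
      K * ∫ x, rho u x ^ (1 + 2 / (d : ℝ)) ≤ kin g) :
    ∀ (N : ℕ) (u : Fin N → (Fin d → ℝ) → ℂ) (g : Fin N → Fin d → (Fin d → ℝ) → ℂ),
      (∀ i, WGradC (u i) (g i)) → SubGram u → C N u →
      (∀ i, ∀ᵐ x, u i (refl k0 x) = -u i x) →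
      2 ^ (2 / (d : ℝ)) * K * ∫ x, rho u x ^ (1 + 2 / (d : ℝ)) ≤ kin g := by
  intro N u g hu hsub hCu hodd0
  have hd : 0 < d := Fin.pos k0
  have hdR : (0 : ℝ) < d := by exact_mod_cast hd
  set p : ℝ := 1 + 2 / (d : ℝ) with hp
  have hp0 : 0 < p := by rw [hp]; positivity
  have hs2 : (√2 : ℝ) ^ 2 = 2 := Real.sq_sqrt (by norm_num)
  -- the squares of the multipliers
  have hm : ∀ (σ : ℝ) (x : Fin d → ℝ), σ ^ 2 = 1 → mul σ k0 x ^ 2 ≤ 1 + σ * Real.sign (x k0) := by
    intro σ x hσ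
    have h1 : Real.sign (x k0) ^ 2 ≤ 1 := by
      rcases Real.sign_apply_eq (x k0) with h | h | h <;> rw [h] <;> norm_num
    have h2 : mul σ k0 x ^ 2 =
        1 / 2 * (1 + 2 * (σ * Real.sign (x k0)) + σ ^ 2 * Real.sign (x k0) ^ 2) := by
      unfold mul
      rw [mul_pow, div_pow, hs2]
      ring
    rw [h2, hσ]
    linarith
  have main : ∀ σ : ℝ, σ ^ 2 = 1 →
      Integrable (fun x => (mul σ k0 x ^ 2 * rho u x) ^ p) ∧
      K * ∫ x, (mul σ k0 x ^ 2 * rho u x) ^ p ≤
        ∑ i, ∑ k, ∫ x, mul σ k0 x ^ 2 * ‖g i k x‖ ^ 2 := by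
    intro σ hσ
    have hN : ∀ (x : Fin d → ℝ) (z : ℂ), ‖((mul σ k0 x : ℝ) : ℂ) * z‖ ^ 2 =
        mul σ k0 x ^ 2 * ‖z‖ ^ 2 := by
      intro x z
      rw [norm_mul, Complex.norm_real, Real.norm_eq_abs, mul_pow, sq_abs]
    have hG : SubGram (fun i x => ((mul σ k0 x : ℝ) : ℂ) * u i x) := ?_
    · have h1 := h N (fun i x => ((mul σ k0 x : ℝ) : ℂ) * u i x)
        (fun i k x => ((mul σ k0 x : ℝ) : ℂ) * g i k x) (fun i => mul_wgrad (hu i) k0 (hodd0 i) σ)
        hG (hC N u σ hCu)
      have h0 := (sub_thm d hd N (fun i x => ((mul σ k0 x : ℝ) : ℂ) * u i x)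
        (fun i k x => ((mul σ k0 x : ℝ) : ℂ) * g i k x)
        (fun i => mul_wgrad (hu i) k0 (hodd0 i) σ) hG).1
      unfold rho kin at h1
      simp only [hN, ← Finset.mul_sum] at h1 h0
      exact ⟨h0, h1⟩
    · -- the Gram matrix
      intro a
      refine le_trans ?_ (hsub a)
      have hL : MemLp (fun x => ∑ i, a i * u i x) 2 volume :=
        memLp_finsetSum _ fun i _ => (hu i).f2.const_mul (a i)
      set w : (Fin d → ℝ) → ℝ := fun x => ‖∑ i, a i * u i x‖ ^ 2 with hw
      have hwi : Integrable w := hL.integrable_norm_pow two_ne_zero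
      have hwe : ∀ᵐ x, w (refl k0 x) = w x := by
        have h2 : ∀ᵐ x, ∀ i, u i (refl k0 x) = -u i x := ae_all_iff.2 hodd0
        filter_upwards [h2] with x hx
        simp only [hw, hx, mul_neg, Finset.sum_neg_distrib, norm_neg]
      have hsi : Integrable (fun x => Real.sign (x k0) * w x) := by
        refine hwi.bdd_mul (c := 1) (sign_meas.comp (measurable_pi_apply k0)).aestronglyMeasurable
          (Eventually.of_forall fun x => ?_)
        rw [Real.norm_eq_abs]
        exact sign_abs _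
      have hs0 : ∫ x, Real.sign (x k0) * w x = 0 := by
        have h2 := integral_refl_real k0 (fun x => Real.sign (x k0) * w x)
        have h3 : ∫ x, Real.sign (refl k0 x k0) * w (refl k0 x) =
            ∫ x, -(Real.sign (x k0) * w x) := by
          refine integral_congr_ae ?_
          filter_upwards [hwe] with x hx
          rw [hx, refl_same, Real.sign_neg]
          ring
        rw [integral_neg] at h3
        linarith
      have h4 : ∫ x, ‖∑ i, a i * (((mul σ k0 x : ℝ) : ℂ) * u i x)‖ ^ 2 ≤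
          ∫ x, (w x + σ * (Real.sign (x k0) * w x)) := by
        refine integral_mono_of_nonneg (Eventually.of_forall fun x => sq_nonneg _)
          (hwi.add (hsi.const_mul σ)) (Eventually.of_forall fun x => ?_)
        show ‖∑ i, a i * (((mul σ k0 x : ℝ) : ℂ) * u i x)‖ ^ 2 ≤
          w x + σ * (Real.sign (x k0) * w x)
        have h5 : ∑ i, a i * (((mul σ k0 x : ℝ) : ℂ) * u i x) =
            ((mul σ k0 x : ℝ) : ℂ) * ∑ i, a i * u i x := by
          rw [Finset.mul_sum]
          exact Finset.sum_congr rfl fun i _ => by ring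
        rw [h5, hN]
        have h6 : 0 ≤ w x := sq_nonneg _
        have h7 := mul_le_mul_of_nonneg_right (hm σ x hσ) h6
        calc mul σ k0 x ^ 2 * w x ≤ (1 + σ * Real.sign (x k0)) * w x := h7
          _ = w x + σ * (Real.sign (x k0) * w x) := by ring
      rw [integral_add hwi (hsi.const_mul σ), integral_const_mul, hs0, mul_zero, add_zero] at h4
      exact h4
  obtain ⟨i1, m1⟩ := main 1 (by norm_num)
  obtain ⟨i2, m2⟩ := main (-1) (by norm_num)
  have hsum : ∀ᵐ x : Fin d → ℝ, (mul 1 k0 x ^ 2 * rho u x) ^ p + (mul (-1) k0 x ^ 2 * rho u x) ^ p =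
      2 ^ p * rho u x ^ p := by
    filter_upwards [ae_ne k0] with x hx
    have hr := rho_nonneg u x
    rcases lt_or_gt_of_ne hx with hlt | hgt
    · have h1 : mul 1 k0 x ^ 2 = 0 := by
        unfold mul; rw [Real.sign_of_neg hlt]; ring
      have h2 : mul (-1) k0 x ^ 2 = 2 := by
        unfold mul; rw [Real.sign_of_neg hlt]
        have : (√2 / 2 * (1 + -1 * -1)) = √2 := by ring
        rw [this, hs2]
      rw [h1, h2, zero_mul, Real.zero_rpow hp0.ne', zero_add, Real.mul_rpow (by norm_num) hr]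
    · have h1 : mul (-1) k0 x ^ 2 = 0 := by
        unfold mul; rw [Real.sign_of_pos hgt]; ring
      have h2 : mul 1 k0 x ^ 2 = 2 := by
        unfold mul; rw [Real.sign_of_pos hgt]
        have : (√2 / 2 * (1 + 1 * 1)) = √2 := by ring
        rw [this, hs2]
      rw [h1, h2, zero_mul, Real.zero_rpow hp0.ne', add_zero, Real.mul_rpow (by norm_num) hr]
  have hi : Integrable (fun x => 2 ^ p * rho u x ^ p) := (i1.add i2).congr hsum
  have h2p : (0 : ℝ) < 2 ^ p := Real.rpow_pos_of_pos (by norm_num) p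
  have hi' : Integrable (fun x => rho u x ^ p) := by
    have := hi.const_mul (2 ^ p : ℝ)⁻¹
    refine this.congr (Eventually.of_forall fun x => ?_)
    show (2 ^ p : ℝ)⁻¹ * (2 ^ p * rho u x ^ p) = rho u x ^ p
    rw [← mul_assoc, inv_mul_cancel₀ h2p.ne', one_mul]
  have hI : (∫ x, (mul 1 k0 x ^ 2 * rho u x) ^ p) + ∫ x, (mul (-1) k0 x ^ 2 * rho u x) ^ p =
      2 ^ p * ∫ x, rho u x ^ p := by
    rw [← integral_add i1 i2, ← integral_const_mul]
    exact integral_congr_ae hsum
  have hT : (∑ i, ∑ k, ∫ x, mul 1 k0 x ^ 2 * ‖g i k x‖ ^ 2) +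
      ∑ i, ∑ k, ∫ x, mul (-1) k0 x ^ 2 * ‖g i k x‖ ^ 2 ≤ 2 * kin g := by
    unfold kin
    rw [← Finset.sum_add_distrib, Finset.mul_sum]
    refine Finset.sum_le_sum fun i _ => ?_
    rw [← Finset.sum_add_distrib, Finset.mul_sum]
    refine Finset.sum_le_sum fun k _ => ?_
    have hgi : Integrable (fun x => ‖g i k x‖ ^ 2) := ((hu i).g2 k).integrable_norm_pow two_ne_zero
    have hb : ∀ σ : ℝ, σ ^ 2 = 1 → Integrable (fun x => mul σ k0 x ^ 2 * ‖g i k x‖ ^ 2) := by
      intro σ hσ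
      refine hgi.bdd_mul (c := 2) ((mul_meas σ k0).pow_const 2).aestronglyMeasurable
        (Eventually.of_forall fun x => ?_)
      rw [Real.norm_eq_abs, abs_of_nonneg (sq_nonneg _)]
      refine (hm σ x hσ).trans ?_
      have h1 := sign_abs (x k0)
      have h2 : |σ| = 1 := by
        have := sq_abs σ
        rw [hσ] at this
        have h0 := abs_nonneg σ
        nlinarith
      have h3 : |σ * Real.sign (x k0)| ≤ 1 := by rw [abs_mul, h2, one_mul]; exact h1
      linarith [le_abs_self (σ * Real.sign (x k0))]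
    rw [← integral_add (hb 1 (by norm_num)) (hb (-1) (by norm_num)), ← integral_const_mul]
    refine integral_mono ((hb 1 (by norm_num)).add (hb (-1) (by norm_num))) (hgi.const_mul 2)
      fun x => ?_
    show mul 1 k0 x ^ 2 * ‖g i k x‖ ^ 2 + mul (-1) k0 x ^ 2 * ‖g i k x‖ ^ 2 ≤ 2 * ‖g i k x‖ ^ 2
    have h1 := hm 1 x (by norm_num)
    have h2 := hm (-1) x (by norm_num)
    nlinarith [sq_nonneg ‖g i k x‖]
  have h3 : K * (2 ^ p * ∫ x, rho u x ^ p) ≤ 2 * kin g := by
    rw [← hI, mul_add]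
    linarith
  have h4 : (2 : ℝ) ^ p = 2 * 2 ^ (2 / (d : ℝ)) := by
    rw [hp, Real.rpow_add (by norm_num), Real.rpow_one]
  rw [h4] at h3
  nlinarith

end Run7.h444.LTR
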